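import Pool.Agent.H30.KL.Cov.Ess

/-!
# Counting (COV-6)

`not_nested`: from `Ess v i' j'`: `v⁻¹ (i'-1) ≤ j'` (`(i'-1,j')` is not in the diagram) and `i' ≤ v (j'+1)` (`(i',j'+1)` is not in the diagram; if
`v⁻¹ i' = j' + 1` then `v (j'+1) = i'`).  The positions `v⁻¹ (i'-1) < j'+1 < j < v⁻¹ i` form a `3412` pattern (`v j < i`).
`strict1`: if `i < p`: `rk v i j = rk v (i+1) j` since `j < v⁻¹ i`, and rows are removed one by one (`rk_row_le`); if `i = p`, `j < q`: `i ≤ v (j+1)`, `rk_succ_col`.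
`strict2`: if `q < j`: `v j < i`, so `rk v i j = rk v i (j-1)`; if `q = j`, `p < i`: `v⁻¹ (i-1) ≤ j`, `rk_succ_row`.
`card_NE`: the rows `≥ i` are the vertices with `i ≤ u x`, there are `n - i` of them.
-/

namespace Pool.Agent.H30.KL

variable {n : ℕ}

/-- the `NE` vertices -/
def NE (u : Equiv.Perm (Fin n)) (i j : Fin n) : Finset (Fin n) :=
  Finset.univ.filter fun x => j < x ∧ i ≤ u x

/-- the `SW` vertices -/
def SW (u : Equiv.Perm (Fin n)) (i j : Fin n) : Finset (Fin n) :=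
  Finset.univ.filter fun x => x ≤ j ∧ u x < i

theorem mem_NE {u : Equiv.Perm (Fin n)} {i j x : Fin n} : x ∈ NE u i j ↔ j < x ∧ i ≤ u x := by
  simp [NE]

theorem mem_SW {u : Equiv.Perm (Fin n)} {i j x : Fin n} : x ∈ SW u i j ↔ x ≤ j ∧ u x < i := by
  simp [SW]

theorem card_NE (u : Equiv.Perm (Fin n)) (i j : Fin n) :
    (NE u i j).card + rk u i j + (i : ℕ) = n := by
  have h1 : (Finset.univ.filter fun x => i ≤ u x).card = n - i := by
    rw [← Fin.card_Ici]
    refine Finset.card_equiv u fun x => ?_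
    simp
  have h2 := Finset.card_filter_add_card_filter_not
    (s := Finset.univ.filter fun x => i ≤ u x) (fun x => j < x)
  have h3 : ((Finset.univ.filter fun x => i ≤ u x).filter fun x => j < x) = NE u i j := by
    ext x
    simp [NE, and_comm]
  have h4 : ((Finset.univ.filter fun x => i ≤ u x).filter fun x => ¬ j < x) =
      Finset.univ.filter fun k => k ≤ j ∧ i ≤ u k := by
    ext x
    simp [and_comm]
  rw [h3, h4, h1] at h2
  have h5 := i.isLt
  rw [rk]
  omega

theorem card_SW (u : Equiv.Perm (Fin n)) (i j : Fin n) :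
    (SW u i j).card + rk u i j = (j : ℕ) + 1 := by
  have h1 : (Finset.univ.filter fun x => x ≤ j).card = (j : ℕ) + 1 := by
    rw [← Fin.card_Iic]
    congr 1
    ext x
    simp
  have h2 := Finset.card_filter_add_card_filter_not
    (s := Finset.univ.filter fun x => x ≤ j) (fun x => u x < i)
  have h3 : ((Finset.univ.filter fun x => x ≤ j).filter fun x => u x < i) = SW u i j := by
    ext x
    simp [SW]
  have h4 : ((Finset.univ.filter fun x => x ≤ j).filter fun x => ¬ u x < i) =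
      Finset.univ.filter fun k => k ≤ j ∧ i ≤ u k := by
    ext x
    simp
  rw [h3, h4, h1] at h2
  rw [rk]
  exact h2

theorem rk_lt_row {v : Equiv.Perm (Fin n)} {i j : Fin n} (h : Dia v i j) :
    rk v i j + (i : ℕ) < n := by
  have h1 := card_NE v i j
  have h2 : 0 < (NE v i j).card := Finset.card_pos.2 ⟨v.symm i, mem_NE.2 ⟨h.2, by simp⟩⟩
  omega

theorem rk_lt_col {v : Equiv.Perm (Fin n)} {i j : Fin n} (h : Dia v i j) :
    rk v i j < (j : ℕ) + 1 := by
  have h1 := card_SW v i j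
  have h2 : 0 < (SW v i j).card := Finset.card_pos.2 ⟨j, mem_SW.2 ⟨le_rfl, h.1⟩⟩
  omega

/-- the column after an essential box -/
theorem ess_col {v : Equiv.Perm (Fin n)} {i j k : Fin n} (h : Ess v i j) (hk : (k : ℕ) = j + 1) :
    i ≤ v k := by
  by_contra hc
  have h1 := h.2.2 k hk
  apply h1
  refine ⟨not_le.1 hc, ?_⟩
  have h2 := h.1.2
  rcases lt_or_eq_of_le (show k ≤ v.symm i by rw [Fin.le_def]; rw [Fin.lt_def] at h2; omega)
    with h3 | h3
  · exact h3
  · exfalso
    apply hc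
    rw [h3]
    simp

/-- the row above an essential box -/
theorem ess_row {v : Equiv.Perm (Fin n)} {i j k : Fin n} (h : Ess v i j) (hk : (k : ℕ) + 1 = i) :
    v.symm k ≤ j := by
  by_contra hc
  have h1 := h.2.1 k hk
  apply h1
  refine ⟨?_, not_le.1 hc⟩
  have h2 := h.1.1
  rcases lt_or_eq_of_le (show v j ≤ k by rw [Fin.le_def]; rw [Fin.lt_def] at h2; omega)
    with h3 | h3
  · exact h3
  · exfalso
    apply hc
    rw [← h3]
    simp

theorem not_nested {v : Equiv.Perm (Fin n)} (hv : Avoids3412 v) {i j i' j' : Fin n}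
    (h : Ess v i j) (h' : Ess v i' j') (hi : i < i') (hj : j' < j) : False := by
  have hi1 := Fin.lt_def.1 hi
  have hj1 := Fin.lt_def.1 hj
  obtain ⟨a, ha⟩ : ∃ a : Fin n, (a : ℕ) + 1 = i' := ⟨⟨i' - 1, by omega⟩, by simp; omega⟩
  obtain ⟨b, hb⟩ : ∃ b : Fin n, (b : ℕ) = j' + 1 := ⟨⟨j' + 1, by omega⟩, rfl⟩
  have h1 := ess_row h' ha
  have h2 := ess_col h' hb
  have h3 := h.1.1
  have h4 := h.1.2
  apply hv
  refine ⟨v.symm a, b, j, v.symm i, ?_, ?_, h4, ?_, ?_, ?_⟩
  · rw [Fin.le_def] at h1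
    rw [Fin.lt_def]
    omega
  · have h5 : b ≠ j := by
      rintro rfl
      exact absurd (lt_of_lt_of_le (h3.trans hi) h2) (lt_irrefl _)
    have h6 : (b : ℕ) ≠ j := fun h => h5 (Fin.ext h)
    rw [Fin.lt_def]
    omega
  · simpa using h3
  · rw [Equiv.apply_symm_apply, Equiv.apply_symm_apply]
    have h5 : i ≠ a := by
      rintro rfl
      exact absurd (lt_of_lt_of_le (hj.trans h4) h1) (lt_irrefl _)
    have h6 : (i : ℕ) ≠ a := fun h => h5 (Fin.ext h)
    rw [Fin.lt_def]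
    omega
  · rw [Equiv.apply_symm_apply]
    refine lt_of_lt_of_le ?_ h2
    rw [Fin.lt_def]
    omega

theorem strict1 {v : Equiv.Perm (Fin n)} {i j p q : Fin n} (h : Ess v i j) (hi : i ≤ p)
    (hj : j ≤ q) (hne : ¬ (i = p ∧ j = q)) :
    rk v i j + (i : ℕ) < rk v p q + (p : ℕ) := by
  have h1 := card_NE v i j
  have h2 := card_NE v p q
  have h3 : (NE v p q).card < (NE v i j).card := by
    apply Finset.card_lt_card
    rw [Finset.ssubset_iff_of_subset]
    · rcases lt_or_eq_of_le hi with h4 | h4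
      · refine ⟨v.symm i, mem_NE.2 ⟨h.1.2, by simp⟩, fun h5 => ?_⟩
        have h6 := (mem_NE.1 h5).2
        rw [Equiv.apply_symm_apply] at h6
        exact absurd h4 (not_lt.2 h6)
      · have h5 : j < q := lt_of_le_of_ne hj fun h6 => hne ⟨h4, h6⟩
        have h6 := Fin.lt_def.1 h5
        obtain ⟨b, hb⟩ : ∃ b : Fin n, (b : ℕ) = j + 1 := ⟨⟨j + 1, by omega⟩, rfl⟩
        refine ⟨b, mem_NE.2 ⟨?_, ess_col h hb⟩, fun h7 => ?_⟩
        · rw [Fin.lt_def]
          omega
        · have h8 := (mem_NE.1 h7).1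
          rw [Fin.lt_def] at h8
          omega
    · intro x hx
      rw [mem_NE] at hx ⊢
      exact ⟨lt_of_le_of_lt hj hx.1, le_trans hi hx.2⟩
  omega

theorem strict2 {v : Equiv.Perm (Fin n)} {i j p q : Fin n} (h : Ess v i j) (hp : p ≤ i)
    (hq : q ≤ j) (hne : ¬ (i = p ∧ j = q)) :
    rk v i j + (q : ℕ) < rk v p q + (j : ℕ) := by
  have h1 := card_SW v i j
  have h2 := card_SW v p q
  have h3 : (SW v p q).card < (SW v i j).card := by
    apply Finset.card_lt_card
    rw [Finset.ssubset_iff_of_subset]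
    · rcases lt_or_eq_of_le hq with h4 | h4
      · refine ⟨j, mem_SW.2 ⟨le_rfl, h.1.1⟩, fun h5 => ?_⟩
        exact absurd h4 (not_lt.2 (mem_SW.1 h5).1)
      · have h5 : p < i := lt_of_le_of_ne hp fun h6 => hne ⟨h6.symm, h4.symm⟩
        have h6 := Fin.lt_def.1 h5
        obtain ⟨a, ha⟩ : ∃ a : Fin n, (a : ℕ) + 1 = i := ⟨⟨i - 1, by omega⟩, by simp; omega⟩
        refine ⟨v.symm a, mem_SW.2 ⟨ess_row h ha, ?_⟩, fun h7 => ?_⟩
        · rw [Equiv.apply_symm_apply, Fin.lt_def]
          omega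
        · have h8 := (mem_SW.1 h7).2
          rw [Equiv.apply_symm_apply, Fin.lt_def] at h8
          omega
    · intro x hx
      rw [mem_SW] at hx ⊢
      exact ⟨le_trans hx.1 hq, lt_of_lt_of_le hx.2 hp⟩
  omega

/-- the rank function of `w312` -/
theorem rk_w312 {u : Equiv.Perm (Fin n)} {c k r : Fin n} (h12 : c < k) (h23 : k < r)
    (g12 : u c < u k) (g23 : u k < u r) (p q : Fin n) : rk (w312 u c k r) p q = rk u p q +
      (if k ≤ q ∧ q < r ∧ u k < p ∧ p ≤ u r then 1 else 0) +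
      (if c ≤ q ∧ q < k ∧ u c < p ∧ p ≤ u r then 1 else 0) := by
  have h1 : w312 u c k r = (u * Equiv.swap k r) * Equiv.swap c k := by
    rw [w312, mul_assoc]
  have e1 : (u * Equiv.swap k r) c = u c := by
    rw [Equiv.Perm.mul_apply, Equiv.swap_apply_of_ne_of_ne h12.ne (h12.trans h23).ne]
  have e2 : (u * Equiv.swap k r) k = u r := by
    rw [Equiv.Perm.mul_apply, Equiv.swap_apply_left]
  rw [h1, rk_swap h12 (by rw [e1, e2]; exact g12.trans g23), rk_swap h23 g23, e1, e2]

/-- upper bound with an involution, by the upper points -/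
theorem rk_invol_le_NE {u τ : Equiv.Perm (Fin n)} (hττ : ∀ x, τ (τ x) = x) (R : Finset (Fin n))
    (hR : ∀ x, τ x < x → x ∈ R) (p q : Fin n) :
    rk (u * τ) p q ≤ rk u p q + (R ∩ NE u p q).card := by
  have h1 : rk (u * τ) p q = (Finset.univ.filter fun y => τ y ≤ q ∧ p ≤ u y).card := by
    rw [rk]
    refine Finset.card_equiv τ fun x => ?_
    simp [hττ]
  rw [h1, rk]
  refine le_trans (Finset.card_le_card (t := (Finset.univ.filter fun k => k ≤ q ∧ p ≤ u k) ∪
    (R ∩ NE u p q)) fun y hy => ?_) (Finset.card_union_le _ _)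
  simp only [Finset.mem_filter, Finset.mem_univ, true_and, Finset.mem_union, Finset.mem_inter,
    mem_NE] at hy ⊢
  rcases le_or_gt y q with h2 | h2
  · exact Or.inl ⟨h2, hy.2⟩
  · exact Or.inr ⟨hR y (lt_of_le_of_lt hy.1 h2), h2, hy.2⟩

/-- upper bound with an involution, by the lower points -/
theorem rk_invol_le_SW {u τ : Equiv.Perm (Fin n)} (hττ : ∀ x, τ (τ x) = x)
    (hu : ∀ x, x < τ x → u x < u (τ x)) (C : Finset (Fin n)) (hC : ∀ x, x < τ x → x ∈ C)
    (p q : Fin n) : rk (u * τ) p q ≤ rk u p q + (C ∩ SW u p q).card := by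
  rw [rk, rk]
  refine le_trans (Finset.card_le_card (t := (Finset.univ.filter fun k => k ≤ q ∧ p ≤ u k) ∪
    (C ∩ SW u p q)) fun y hy => ?_) (Finset.card_union_le _ _)
  simp only [Finset.mem_filter, Finset.mem_univ, true_and, Finset.mem_union, Finset.mem_inter,
    mem_SW, Equiv.Perm.mul_apply] at hy ⊢
  rcases le_or_gt p (u y) with h2 | h2
  · exact Or.inl ⟨hy.1, h2⟩
  · refine Or.inr ⟨hC y ?_, hy.1, h2⟩
    by_contra hc
    rcases lt_or_eq_of_le (not_lt.1 hc) with h3 | h3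
    · have h4 := hu (τ y) (by rw [hττ]; exact h3)
      rw [hττ] at h4
      exact absurd (lt_of_lt_of_le (h4.trans h2) hy.2) (lt_irrefl _)
    · have h4 := hy.2
      rw [h3] at h4
      exact absurd (lt_of_lt_of_le h2 h4) (lt_irrefl _)

theorem rk_invol_ge {u τ : Equiv.Perm (Fin n)} (C : Finset (Fin n)) {i j : Fin n}
    (hC : C ⊆ SW u i j) (hτC : ∀ x ∈ C, i ≤ u (τ x)) (hfix : ∀ x, x ≤ j → i ≤ u x → τ x = x) :
    rk u i j + C.card ≤ rk (u * τ) i j := by
  rw [rk, rk, ← Finset.card_union_of_disjoint]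
  · apply Finset.card_le_card
    intro x hx
    simp only [Finset.mem_filter, Finset.mem_univ, true_and, Finset.mem_union,
      Equiv.Perm.mul_apply] at hx ⊢
    rcases hx with h1 | h1
    · rw [hfix x h1.1 h1.2]
      exact h1
    · exact ⟨(mem_SW.1 (hC h1)).1, hτC x h1⟩
  · rw [Finset.disjoint_left]
    intro x hx hx'
    simp only [Finset.mem_filter, Finset.mem_univ, true_and] at hx
    exact absurd (mem_SW.1 (hC hx')).2 (not_lt.2 hx.2)

end Pool.Agent.H30.KL
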