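import Pool.Agent.H30.KL.Fulton
import Pool.Agent.H30.KL.Obst
import Pool.Agent.H30.KL.Classes

/-!
# Covexillary case (MP_a7460d_ag): definitions

Vertices are the positions `a` of `u`, with value `u a`.  For a box `(i,j)` (rows `≥ i`, columns `≤ j`) a vertex `a` is
`SW` if `a ≤ j`, `u a < i`; `NW` if `a ≤ j`, `i ≤ u a`; `NE` if `j < a`, `i ≤ u a`; `SE` if `j < a`, `u a < i`.
`(a,b)` is separated by `(i,j)` if `a` is `SW` and `b` is `NE`.
-/

open MvPolynomial Matrix

namespace Pool.Agent.H30.KL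

variable {n : ℕ}

/-- `a < b`, `u a < u b` and `u t_{ab} ≤ v` -/
def Up (u v : Equiv.Perm (Fin n)) (a b : Fin n) : Prop :=
  a < b ∧ u a < u b ∧ BruhatLE (u * Equiv.swap a b) v

/-- `k` is a `NW` vertex of the box `(i,j)`, joined to the `SW` vertex `c` by a chain through `NW` vertices with all steps `Up` -/
inductive Reach (u v : Equiv.Perm (Fin n)) (i j c : Fin n) : Fin n → Prop
  | base {k : Fin n} : u c < i → Up u v c k → k ≤ j → i ≤ u k → Reach u v i j c k
  | step {k k' : Fin n} : Reach u v i j c k → Up u v k k' → k' ≤ j → i ≤ u k' → Reach u v i j c k'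

/-- there is a chain `SW → NW → ... → NW → NE` with all steps `Up` -/
def BadChain (u v : Equiv.Perm (Fin n)) (i j : Fin n) : Prop :=
  ∃ c k r, Reach u v i j c k ∧ Up u v k r ∧ j < r

/-- `123` pattern through an essential box with both steps `Up` -/
def Bad (u v : Equiv.Perm (Fin n)) : Prop :=
  ∃ i j c k r : Fin n, Ess v i j ∧ c < k ∧ k ≤ j ∧ j < r ∧ u c < i ∧ i ≤ u k ∧ u k < u r ∧
    BruhatLE (u * Equiv.swap c k) v ∧ BruhatLE (u * Equiv.swap k r) v

/-- `v` avoids `3412` -/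
def Avoids3412 (v : Equiv.Perm (Fin n)) : Prop :=
  ¬ ∃ a b c d : Fin n, a < b ∧ b < c ∧ c < d ∧ v c < v d ∧ v d < v a ∧ v a < v b

end Pool.Agent.H30.KL
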