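import Pool.Agent.H30.KL.Cov.Defs

/-!
# Reduction to the essential boxes (COV-1)

`exists_ess`: if `(i,j) ∈ D(v)` and `(i-1,j) ∈ D(v)` then `rk v (i-1) j = rk v i j` (because `j < v⁻¹(i-1)`); if `(i,j+1) ∈ D(v)` then
`rk v i (j+1) = rk v i j` (because `v (j+1) < i`).  Induction on `i + (n - j)`.
`bruhat_of_ess`: as in `det_mem_diaIdeal` (`Fulton.lean`): induction on `(n - i) + j`: if `(i,j)` is not in `D(v)` use `rk_succ_col`, `rk_succ_row` for `v` and
`rk_col_le`, `rk_row_le` for `w` (careful with `j = 0` and `i = n - 1`: `rk w i 0 ≤ 1`, `rk w (n-1) j ≤ 1`).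
`klIdeal_le_of_ess`: `klIdeal_eq`, `exists_ess`.
`rk_swap`: `(u * swap a b) a = u b`, `(u * swap a b) b = u a`.
-/

open MvPolynomial Matrix

namespace Pool.Agent.H30.KL

variable {n : ℕ}

theorem rk_mono_col (v : Equiv.Perm (Fin n)) (i : Fin n) {j j' : Fin n} (h : j ≤ j') :
    rk v i j ≤ rk v i j' := by
  apply Finset.card_le_card
  intro k hk
  simp only [Finset.mem_filter, Finset.mem_univ, true_and] at hk ⊢
  exact ⟨le_trans hk.1 h, hk.2⟩

theorem rk_mono_row (v : Equiv.Perm (Fin n)) {i i' : Fin n} (j : Fin n) (h : i' ≤ i) :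
    rk v i j ≤ rk v i' j := by
  apply Finset.card_le_card
  intro k hk
  simp only [Finset.mem_filter, Finset.mem_univ, true_and] at hk ⊢
  exact ⟨hk.1, le_trans h hk.2⟩

theorem rk_col_le (w : Equiv.Perm (Fin n)) (i : Fin n) {j j' : Fin n} (h : (j' : ℕ) + 1 = j) :
    rk w i j ≤ rk w i j' + 1 := by
  have h1 : (Finset.univ.filter fun k => k ≤ j ∧ i ≤ w k) ⊆
      insert j (Finset.univ.filter fun k => k ≤ j' ∧ i ≤ w k) := by
    intro k hk
    simp only [Finset.mem_filter, Finset.mem_univ, true_and, Finset.mem_insert] at hk ⊢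
    by_cases hkj : k = j
    · exact Or.inl hkj
    · right
      refine ⟨?_, hk.2⟩
      have h2 := hk.1
      rw [Fin.le_def] at h2 ⊢
      have h3 : (k : ℕ) ≠ j := fun h => hkj (Fin.ext h)
      omega
  exact le_trans (Finset.card_le_card h1) (Finset.card_insert_le _ _)

theorem rk_row_le (w : Equiv.Perm (Fin n)) {i i' : Fin n} (j : Fin n) (h : (i : ℕ) + 1 = i') :
    rk w i j ≤ rk w i' j + 1 := by
  have h1 : (Finset.univ.filter fun k => k ≤ j ∧ i ≤ w k) ⊆
      insert (w.symm i) (Finset.univ.filter fun k => k ≤ j ∧ i' ≤ w k) := by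
    intro k hk
    simp only [Finset.mem_filter, Finset.mem_univ, true_and, Finset.mem_insert] at hk ⊢
    by_cases hkj : w k = i
    · left
      rw [← hkj]
      simp
    · right
      refine ⟨hk.1, ?_⟩
      have h2 := hk.2
      rw [Fin.le_def] at h2 ⊢
      have h3 : (w k : ℕ) ≠ i := fun h => hkj (Fin.ext h)
      omega
  exact le_trans (Finset.card_le_card h1) (Finset.card_insert_le _ _)

theorem Ess_rk_row_eq {v : Equiv.Perm (Fin n)} {i i' j : Fin n} (h : Dia v i' j)
    (hi : (i' : ℕ) + 1 = i) : rk v i' j = rk v i j := by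
  apply le_antisymm
  · apply Finset.card_le_card
    intro k hk
    simp only [Finset.mem_filter, Finset.mem_univ, true_and] at hk ⊢
    refine ⟨hk.1, ?_⟩
    have h2 := hk.2
    have h3 : (v k : ℕ) ≠ i' := by
      intro h4
      have h5 : v k = i' := Fin.ext h4
      have h6 : k = v.symm i' := by rw [← h5]; simp
      have h7 := h.2
      rw [← h6] at h7
      exact absurd hk.1 (not_le.2 h7)
    rw [Fin.le_def] at h2 ⊢
    omega
  · exact rk_mono_row v j (by rw [Fin.le_def]; omega)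

theorem Ess_rk_col_eq {v : Equiv.Perm (Fin n)} {i j j' : Fin n} (h : Dia v i j')
    (hj : (j' : ℕ) = j + 1) : rk v i j' = rk v i j := by
  apply le_antisymm
  · apply Finset.card_le_card
    intro k hk
    simp only [Finset.mem_filter, Finset.mem_univ, true_and] at hk ⊢
    refine ⟨?_, hk.2⟩
    have h2 := hk.1
    have h3 : (k : ℕ) ≠ j' := by
      intro h4
      have h5 : k = j' := Fin.ext h4
      have h6 := hk.2
      rw [h5] at h6
      exact absurd h6 (not_le.2 h.1)
    rw [Fin.le_def] at h2 ⊢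
    omega
  · exact rk_mono_col v i (by rw [Fin.le_def]; omega)

theorem Ess_exists_aux (v : Equiv.Perm (Fin n)) : ∀ (N : ℕ) (i j : Fin n), (i : ℕ) + (n - j) ≤ N →
    Dia v i j → ∃ i0 j0, Ess v i0 j0 ∧ i0 ≤ i ∧ j ≤ j0 ∧ rk v i0 j0 = rk v i j := by
  intro N
  induction N with
  | zero =>
    intro i j h
    have := j.isLt
    omega
  | succ N ih =>
    intro i j hN hD
    have hjn := j.isLt
    by_cases h1 : ∃ i' : Fin n, (i' : ℕ) + 1 = i ∧ Dia v i' j
    · obtain ⟨i', hi', hD'⟩ := h1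
      obtain ⟨i0, j0, hE, h2, h3, h4⟩ := ih i' j (by omega) hD'
      refine ⟨i0, j0, hE, le_trans h2 ?_, h3, ?_⟩
      · rw [Fin.le_def]; omega
      · rw [h4, Ess_rk_row_eq hD' hi']
    by_cases h2 : ∃ j' : Fin n, (j' : ℕ) = j + 1 ∧ Dia v i j'
    · obtain ⟨j', hj', hD'⟩ := h2
      obtain ⟨i0, j0, hE, h2, h3, h4⟩ := ih i j' (by omega) hD'
      refine ⟨i0, j0, hE, h2, le_trans ?_ h3, ?_⟩
      · rw [Fin.le_def]; omega
      · rw [h4, Ess_rk_col_eq hD' hj']
    push Not at h1 h2
    exact ⟨i, j, ⟨hD, h1, h2⟩, le_rfl, le_rfl, rfl⟩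

theorem exists_ess {v : Equiv.Perm (Fin n)} {i j : Fin n} (h : Dia v i j) :
    ∃ i0 j0, Ess v i0 j0 ∧ i0 ≤ i ∧ j ≤ j0 ∧ rk v i0 j0 = rk v i j :=
  Ess_exists_aux v _ i j le_rfl h

theorem Ess_bruhat_aux {w v : Equiv.Perm (Fin n)}
    (h : ∀ i j, Ess v i j → rk w i j ≤ rk v i j) : ∀ (N : ℕ) (i j : Fin n),
    (n - i) + j ≤ N → rk w i j ≤ rk v i j := by
  intro N
  induction N with
  | zero =>
    intro i j h
    have := i.isLt
    omega
  | succ N ih =>
    intro i j hN
    have hin := i.isLt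
    by_cases hD : Dia v i j
    · obtain ⟨i0, j0, hE, h1, h2, h3⟩ := exists_ess hD
      rw [← h3]
      exact le_trans (le_trans (rk_mono_row w j h1) (rk_mono_col w i0 h2)) (h i0 j0 hE)
    rw [Dia, not_and_or, not_lt, not_lt] at hD
    rcases hD with hD | hD
    · rcases Nat.eq_zero_or_pos (j : ℕ) with hj | hj
      · have h1 : 1 ≤ rk v i j := by
          rw [rk, Nat.one_le_iff_ne_zero, ← Nat.pos_iff_ne_zero, Finset.card_pos]
          exact ⟨j, by simp [hD]⟩
        have h2 : rk w i j ≤ 1 := by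
          have h3 : (Finset.univ.filter fun k => k ≤ j ∧ i ≤ w k) ⊆ {j} := by
            intro k hk
            simp only [Finset.mem_filter, Finset.mem_univ, true_and, Finset.mem_singleton] at hk ⊢
            have h4 := hk.1
            rw [Fin.le_def] at h4
            exact Fin.ext (by omega)
          exact le_trans (Finset.card_le_card h3) (by simp)
        omega
      · obtain ⟨j', hj'⟩ : ∃ j' : Fin n, (j' : ℕ) + 1 = j := ⟨⟨j - 1, by omega⟩, by simp; omega⟩
        have h1 := rk_succ_col v hD hj'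
        have h2 := rk_col_le w i hj'
        have h3 := ih i j' (by omega)
        omega
    · by_cases hi' : (i : ℕ) + 1 = n
      · have h1 : 1 ≤ rk v i j := by
          rw [rk, Nat.one_le_iff_ne_zero, ← Nat.pos_iff_ne_zero, Finset.card_pos]
          exact ⟨v.symm i, by simp [hD]⟩
        have h2 : rk w i j ≤ 1 := by
          have h3 : (Finset.univ.filter fun k => k ≤ j ∧ i ≤ w k) ⊆ {w.symm i} := by
            intro k hk
            simp only [Finset.mem_filter, Finset.mem_univ, true_and, Finset.mem_singleton] at hk ⊢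
            have h4 := hk.2
            have h5 := (w k).isLt
            rw [Fin.le_def] at h4
            have h6 : w k = i := Fin.ext (by omega)
            rw [← h6]
            simp
          exact le_trans (Finset.card_le_card h3) (by simp)
        omega
      · obtain ⟨i', hi'⟩ : ∃ i' : Fin n, (i : ℕ) + 1 = i' := ⟨⟨i + 1, by omega⟩, rfl⟩
        have h1 := rk_succ_row v hD hi'
        have h2 := rk_row_le w j hi'
        have h3 := ih i' j (by omega)
        omega

/-- the Bruhat order can be checked on the essential boxes -/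
theorem bruhat_of_ess {w v : Equiv.Perm (Fin n)} (h : ∀ i j, Ess v i j → rk w i j ≤ rk v i j) :
    BruhatLE w v := fun i j => Ess_bruhat_aux h _ i j le_rfl

/-- the minors of the essential boxes generate the ideal -/
theorem klIdeal_le_of_ess (u v : Equiv.Perm (Fin n)) {J : Ideal (MvPolynomial (Free u) ℂ)}
    (h : ∀ i j, Ess v i j → ∀ (m : ℕ) (f g : Fin m → Fin n), m = rk v i j + 1 → (∀ a, i ≤ f a) →
      (∀ b, g b ≤ j) → ((Zmat u).submatrix f g).det ∈ J) : klIdeal u v ≤ J := by
  rw [klIdeal_eq, diaIdeal, Ideal.span_le]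
  rintro x ⟨i, j, m, f, g, hD, hm, hf, hg, rfl⟩
  obtain ⟨i0, j0, hE, h1, h2, h3⟩ := exists_ess hD
  exact h i0 j0 hE m f g (by rw [hm, h3]) (fun a => le_trans h1 (hf a))
    (fun b => le_trans (hg b) h2)

theorem Ess_rk_sum (v : Equiv.Perm (Fin n)) {a b : Fin n} (hab : a ≠ b) (i j : Fin n) :
    rk v i j = (if a ≤ j ∧ i ≤ v a then 1 else 0) + ((if b ≤ j ∧ i ≤ v b then 1 else 0) +
      ∑ k ∈ (Finset.univ.erase a).erase b, if k ≤ j ∧ i ≤ v k then 1 else 0) := by
  rw [rk, Finset.card_filter]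
  rw [Finset.add_sum_erase (Finset.univ.erase a) (fun k => if k ≤ j ∧ i ≤ v k then 1 else 0)
    (Finset.mem_erase.2 ⟨hab.symm, Finset.mem_univ _⟩)]
  rw [Finset.add_sum_erase Finset.univ (fun k => if k ≤ j ∧ i ≤ v k then 1 else 0)
    (Finset.mem_univ _)]

theorem rk_swap {u : Equiv.Perm (Fin n)} {a b : Fin n} (hab : a < b) (hu : u a < u b)
    (i j : Fin n) : rk (u * Equiv.swap a b) i j =
      rk u i j + if a ≤ j ∧ j < b ∧ u a < i ∧ i ≤ u b then 1 else 0 := by
  rw [Ess_rk_sum (u * Equiv.swap a b) hab.ne i j, Ess_rk_sum u hab.ne i j]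
  have hrest : (∑ k ∈ (Finset.univ.erase a).erase b,
      if k ≤ j ∧ i ≤ (u * Equiv.swap a b) k then 1 else 0) =
      ∑ k ∈ (Finset.univ.erase a).erase b, if k ≤ j ∧ i ≤ u k then 1 else 0 := by
    apply Finset.sum_congr rfl
    intro k hk
    simp only [Finset.mem_erase, Finset.mem_univ, and_true] at hk
    rw [Equiv.Perm.mul_apply, Equiv.swap_apply_of_ne_of_ne hk.2 hk.1]
  rw [hrest, Equiv.Perm.mul_apply, Equiv.Perm.mul_apply, Equiv.swap_apply_left,
    Equiv.swap_apply_right]
  rw [Fin.lt_def] at hab hu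
  simp only [Fin.le_def, Fin.lt_def]
  split_ifs <;> omega

theorem le_of_swap {u v : Equiv.Perm (Fin n)} {a b : Fin n} (hab : a < b) (hu : u a < u b)
    (h : BruhatLE (u * Equiv.swap a b) v) : BruhatLE u v := by
  intro i j
  have h1 := h i j
  rw [rk_swap hab hu] at h1
  omega

theorem sep_of_not_le {u v : Equiv.Perm (Fin n)} {a b : Fin n} (huv : BruhatLE u v) (hab : a < b)
    (hu : u a < u b) (h : ¬ BruhatLE (u * Equiv.swap a b) v) :
    ∃ i j, Ess v i j ∧ a ≤ j ∧ j < b ∧ u a < i ∧ i ≤ u b ∧ rk u i j = rk v i j := by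
  by_contra hcon
  push Not at hcon
  apply h
  apply bruhat_of_ess
  intro i j hE
  rw [rk_swap hab hu]
  have h1 := huv i j
  split_ifs with h2
  · have h3 := hcon i j hE h2.1 h2.2.1 h2.2.2.1 h2.2.2.2
    omega
  · omega

theorem lt_of_swap_le {u v : Equiv.Perm (Fin n)} {a b : Fin n} (hab : a < b) (hu : u a < u b)
    (h : BruhatLE (u * Equiv.swap a b) v) {i j : Fin n} (h1 : a ≤ j) (h2 : j < b) (h3 : u a < i)
    (h4 : i ≤ u b) : rk u i j < rk v i j := by
  have h5 := h i j
  rw [rk_swap hab hu, if_pos ⟨h1, h2, h3, h4⟩] at h5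
  omega

end Pool.Agent.H30.KL
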