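import Mathlib

/-!
# Minors of products, factorisation (COV-3a)

`minor_mul_mem`: `det` is multilinear in the rows: `(P * X) (f a) (g b) = ∑ l, P (f a) l * X l (g b)`;
`Matrix.detRowAlternating`, `MultilinearMap.map_sum`, `MultilinearMap.map_smul_univ`.  For `Q` use the transpose.

`fac`: matrices over a commutative ring `R`, rows and columns indexed by `ι`.  `N1 ∪ N2` are the `NW` vertices, `C` the `SW` and `B` the `NE` vertices; `E` is zero
outside rows `N1 ∪ N2 ∪ B`, columns `N1 ∪ N2 ∪ C`.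
`P b b' = if b' ∈ N2 then E b b' else if b = b' then 1 else 0`, `Q a' a = if a' ∈ N1 ∧ a ∉ N2 then E a' a else if a' = a then 1 else 0`,
`D b a = if b = a ∧ (a ∈ N1 ∨ a ∈ N2) then 1 else if b ∈ B ∧ a ∈ C then E b a else 0`.  Then `E = P * D * Q`.
The scaled matrix `E' b a = if b = a then E b a else s * E b a` satisfies the same hypotheses, `E' = P' * D' * Q'`, and `D' = Δ * D` with `Δ` diagonal
(`s` on `B`, `1` elsewhere).  `P`, `Q` are lower triangular with `1` on the diagonal, so they are invertible: `E' = P' * Δ * P⁻¹ * E * Q⁻¹ * Q'`.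
-/

open Matrix

namespace Pool.Agent.H30.KL

theorem fac_minor_left {ι R : Type*} [Fintype ι] [DecidableEq ι] [CommRing R] (J : Ideal R)
    {m : ℕ} (P X : Matrix ι ι R)
    (h : ∀ f g : Fin m → ι, (X.submatrix f g).det ∈ J) (f g : Fin m → ι) :
    ((P * X).submatrix f g).det ∈ J := by
  have h1 : ((P * X).submatrix f g).det =
      (Matrix.detRowAlternating (n := Fin m) (R := R)).toMultilinearMap
        (fun i => ∑ l : ι, P (f i) l • (fun j : Fin m => X l (g j))) := by
    change Matrix.det _ = Matrix.det _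
    refine congrArg Matrix.det ?_
    funext i j
    rw [Matrix.submatrix_apply, Matrix.mul_apply, Finset.sum_apply]
    rfl
  rw [h1, MultilinearMap.map_sum]
  refine Ideal.sum_mem _ fun r _ => ?_
  rw [MultilinearMap.map_smul_univ]
  exact J.mul_mem_left _ (h r g)

theorem minor_mul_mem {ι R : Type*} [Fintype ι] [DecidableEq ι] [CommRing R] (J : Ideal R)
    {m : ℕ} (P X Q : Matrix ι ι R)
    (h : ∀ f g : Fin m → ι, (X.submatrix f g).det ∈ J) (f g : Fin m → ι) :
    ((P * X * Q).submatrix f g).det ∈ J := by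
  have h1 := fac_minor_left J P X h
  have h2 : ∀ f g : Fin m → ι, ((P * X)ᵀ.submatrix f g).det ∈ J := by
    intro f g
    have h3 : (P * X)ᵀ.submatrix f g = ((P * X).submatrix g f)ᵀ := rfl
    rw [h3, Matrix.det_transpose]
    exact h1 g f
  have h4 := fac_minor_left J Qᵀ (P * X)ᵀ h2 g f
  have h5 : (Qᵀ * (P * X)ᵀ).submatrix g f = ((P * X * Q).submatrix f g)ᵀ := by
    rw [← Matrix.transpose_mul]
    rfl
  rw [h5, Matrix.det_transpose] at h4
  exact h4

section

variable {n : ℕ} {R : Type*} [CommRing R]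

/-- the left factor -/
def facP (E : Matrix (Fin n) (Fin n) R) (N2 : Finset (Fin n)) : Matrix (Fin n) (Fin n) R :=
  Matrix.of fun b b' => if b' ∈ N2 then E b b' else if b = b' then 1 else 0

/-- the right factor -/
def facQ (E : Matrix (Fin n) (Fin n) R) (N1 N2 : Finset (Fin n)) : Matrix (Fin n) (Fin n) R :=
  Matrix.of fun a' a => if a' ∈ N1 ∧ a ∉ N2 then E a' a else if a' = a then 1 else 0

/-- the middle factor -/
def facD (E : Matrix (Fin n) (Fin n) R) (N1 N2 B C : Finset (Fin n)) :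
    Matrix (Fin n) (Fin n) R :=
  Matrix.of fun b a => if b = a ∧ (a ∈ N1 ∨ a ∈ N2) then 1 else
    if b ∈ B ∧ a ∈ C then E b a else 0

theorem facP_apply (E : Matrix (Fin n) (Fin n) R) (N2 : Finset (Fin n)) (b b' : Fin n) :
    facP E N2 b b' = if b' ∈ N2 then E b b' else if b = b' then 1 else 0 := rfl

theorem facQ_apply (E : Matrix (Fin n) (Fin n) R) (N1 N2 : Finset (Fin n)) (a' a : Fin n) :
    facQ E N1 N2 a' a = if a' ∈ N1 ∧ a ∉ N2 then E a' a else if a' = a then 1 else 0 := rfl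

theorem facD_apply (E : Matrix (Fin n) (Fin n) R) (N1 N2 B C : Finset (Fin n)) (b a : Fin n) :
    facD E N1 N2 B C b a = if b = a ∧ (a ∈ N1 ∨ a ∈ N2) then 1 else
      if b ∈ B ∧ a ∈ C then E b a else 0 := rfl

theorem facP_of_mem (E : Matrix (Fin n) (Fin n) R) {N2 : Finset (Fin n)} (b : Fin n) {k : Fin n}
    (h : k ∈ N2) : facP E N2 b k = E b k := by
  rw [facP_apply, if_pos h]

theorem facP_of_not (E : Matrix (Fin n) (Fin n) R) {N2 : Finset (Fin n)} (b : Fin n) {k : Fin n}
    (h : k ∉ N2) : facP E N2 b k = if b = k then 1 else 0 := by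
  rw [facP_apply, if_neg h]

theorem facQ_of (E : Matrix (Fin n) (Fin n) R) {N1 N2 : Finset (Fin n)} {k a : Fin n}
    (h : k ∈ N1) (h' : a ∉ N2) : facQ E N1 N2 k a = E k a := by
  rw [facQ_apply, if_pos (show k ∈ N1 ∧ a ∉ N2 from ⟨h, h'⟩)]

theorem facQ_not (E : Matrix (Fin n) (Fin n) R) {N1 N2 : Finset (Fin n)} {k a : Fin n}
    (h : k ∉ N1) : facQ E N1 N2 k a = if k = a then 1 else 0 := by
  rw [facQ_apply, if_neg (fun h1 : k ∈ N1 ∧ a ∉ N2 => h h1.1)]

theorem facQ_mem (E : Matrix (Fin n) (Fin n) R) {N1 N2 : Finset (Fin n)} {k a : Fin n}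
    (h : a ∈ N2) : facQ E N1 N2 k a = if k = a then 1 else 0 := by
  rw [facQ_apply, if_neg (fun h1 : k ∈ N1 ∧ a ∉ N2 => h1.2 h)]

theorem facD_self (E : Matrix (Fin n) (Fin n) R) {N1 N2 B C : Finset (Fin n)} {a : Fin n}
    (h : a ∈ N1 ∨ a ∈ N2) : facD E N1 N2 B C a a = 1 := by
  rw [facD_apply, if_pos (show a = a ∧ (a ∈ N1 ∨ a ∈ N2) from ⟨rfl, h⟩)]

theorem facD_off (E : Matrix (Fin n) (Fin n) R) {N1 N2 B C : Finset (Fin n)} {k a : Fin n}
    (h : a ∉ C) (hk : k ≠ a) : facD E N1 N2 B C k a = 0 := by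
  rw [facD_apply, if_neg (fun h1 : k = a ∧ (a ∈ N1 ∨ a ∈ N2) => hk h1.1),
    if_neg (fun h1 : k ∈ B ∧ a ∈ C => h h1.2)]

theorem facD_not (E : Matrix (Fin n) (Fin n) R) {N1 N2 B C : Finset (Fin n)} {k a : Fin n}
    (h : ¬ (a ∈ N1 ∨ a ∈ N2)) :
    facD E N1 N2 B C k a = if k ∈ B ∧ a ∈ C then E k a else 0 := by
  rw [facD_apply, if_neg (fun h1 : k = a ∧ (a ∈ N1 ∨ a ∈ N2) => h h1.2)]

theorem fac_PD (E : Matrix (Fin n) (Fin n) R)
    (N1 N2 B C : Finset (Fin n)) (h2B : Disjoint N2 B) (h1C : Disjoint N1 C)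
    (h2C : Disjoint N2 C) (b a : Fin n) :
    (facP E N2 * facD E N1 N2 B C) b a = if a ∈ N1 ∨ a ∈ N2 then facP E N2 b a else
      if b ∈ B ∧ a ∈ C then E b a else 0 := by
  rw [Matrix.mul_apply]
  by_cases ha : a ∈ N1 ∨ a ∈ N2
  · have haC : a ∉ C := by
      rcases ha with ha | ha
      · exact Finset.disjoint_left.1 h1C ha
      · exact Finset.disjoint_left.1 h2C ha
    rw [if_pos ha, Finset.sum_eq_single a]
    · rw [facD_self E ha, mul_one]
    · intro k _ hk
      rw [facD_off E haC hk, mul_zero]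
    · intro h
      exact absurd (Finset.mem_univ _) h
  · rw [if_neg ha, Finset.sum_eq_single b]
    · rw [facD_not E ha]
      by_cases hb : b ∈ B ∧ a ∈ C
      · have hb2 : b ∉ N2 := Finset.disjoint_right.1 h2B hb.1
        rw [if_pos hb, facP_of_not E b hb2, if_pos rfl, one_mul]
      · rw [if_neg hb, mul_zero]
    · intro k _ hk
      rw [facD_not E ha]
      by_cases hb : k ∈ B ∧ a ∈ C
      · have hb2 : k ∉ N2 := Finset.disjoint_right.1 h2B hb.1
        rw [facP_of_not E b hb2, if_neg (fun h : b = k => hk h.symm), zero_mul]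
      · rw [if_neg hb, mul_zero]
    · intro h
      exact absurd (Finset.mem_univ _) h

theorem fac_eq (E : Matrix (Fin n) (Fin n) R)
    (N1 N2 B C : Finset (Fin n)) (h12 : Disjoint N1 N2) (h1B : Disjoint N1 B)
    (h2B : Disjoint N2 B) (h1C : Disjoint N1 C) (h2C : Disjoint N2 C)
    (hrow : ∀ b a, b ∉ N1 → b ∉ N2 → b ∉ B → E b a = 0)
    (hcol : ∀ b a, a ∉ N1 → a ∉ N2 → a ∉ C → E b a = 0)
    (h21 : ∀ b ∈ N2, ∀ a ∈ N1, E b a = 0) (h2C0 : ∀ b ∈ N2, ∀ a ∈ C, E b a = 0)
    (hB1 : ∀ b ∈ B, ∀ a ∈ N1, E b a = 0) :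
    E = facP E N2 * facD E N1 N2 B C * facQ E N1 N2 := by
  ext b a
  rw [Matrix.mul_apply, Finset.sum_congr rfl fun k _ => by
    rw [fac_PD E N1 N2 B C h2B h1C h2C b k]]
  by_cases ha2 : a ∈ N2
  · rw [Finset.sum_eq_single a]
    · rw [if_pos (show a ∈ N1 ∨ a ∈ N2 from Or.inr ha2), facP_of_mem E b ha2, facQ_mem E ha2,
        if_pos rfl, mul_one]
    · intro k _ hk
      rw [facQ_mem E ha2, if_neg hk, mul_zero]
    · intro h
      exact absurd (Finset.mem_univ _) h
  · have hterm : ∀ k : Fin n, (if k ∈ N1 ∨ k ∈ N2 then facP E N2 b k else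
        if b ∈ B ∧ k ∈ C then E b k else 0) * facQ E N1 N2 k a =
        (if k = b then (if b ∈ N1 then E b a else 0) else 0) +
        (if k = a then (if a ∈ N1 then 0 else if b ∈ B ∧ a ∈ C then E b a else 0) else 0) := by
      intro k
      by_cases hk1 : k ∈ N1
      · have hk2 : k ∉ N2 := Finset.disjoint_left.1 h12 hk1
        rw [if_pos (show k ∈ N1 ∨ k ∈ N2 from Or.inl hk1), facP_of_not E b hk2,
          facQ_of E hk1 ha2]
        have hka' : (if k = a then (if a ∈ N1 then 0 else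
            if b ∈ B ∧ a ∈ C then E b a else 0) else 0) = (0 : R) := by
          by_cases hka : k = a
          · rw [if_pos hka, if_pos (hka ▸ hk1)]
          · rw [if_neg hka]
        rw [hka', add_zero]
        by_cases hkb : k = b
        · rw [if_pos hkb, if_pos hkb.symm, if_pos (hkb ▸ hk1), one_mul, hkb]
        · rw [if_neg hkb, if_neg (fun h : b = k => hkb h.symm), zero_mul]
      · rw [facQ_not E hk1]
        have hkb' : (if k = b then (if b ∈ N1 then E b a else 0) else 0) = (0 : R) := by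
          by_cases hkb : k = b
          · rw [if_pos hkb, if_neg (hkb ▸ hk1)]
          · rw [if_neg hkb]
        rw [hkb', zero_add]
        by_cases hka : k = a
        · rw [if_pos hka, if_pos hka, if_neg (hka ▸ hk1 : a ∉ N1), mul_one, hka,
            if_neg (fun h : a ∈ N1 ∨ a ∈ N2 => h.elim (hka ▸ hk1) ha2)]
        · rw [if_neg hka, if_neg hka, mul_zero]
    rw [Finset.sum_congr rfl fun k _ => hterm k, Finset.sum_add_distrib]
    simp only [Finset.sum_ite_eq', Finset.mem_univ, if_true]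
    by_cases ha1 : a ∈ N1
    · rw [if_pos ha1, add_zero]
      by_cases hb1 : b ∈ N1
      · rw [if_pos hb1]
      · rw [if_neg hb1]
        by_cases hb2 : b ∈ N2
        · exact h21 b hb2 a ha1
        · by_cases hbB : b ∈ B
          · exact hB1 b hbB a ha1
          · exact hrow b a hb1 hb2 hbB
    · rw [if_neg ha1]
      by_cases haC : a ∈ C
      · by_cases hb1 : b ∈ N1
        · rw [if_pos hb1, if_neg (fun h : b ∈ B ∧ a ∈ C => Finset.disjoint_left.1 h1B hb1 h.1),
            add_zero]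
        · rw [if_neg hb1, zero_add]
          by_cases hbB : b ∈ B
          · rw [if_pos (show b ∈ B ∧ a ∈ C from ⟨hbB, haC⟩)]
          · rw [if_neg (fun h : b ∈ B ∧ a ∈ C => hbB h.1)]
            by_cases hb2 : b ∈ N2
            · exact h2C0 b hb2 a haC
            · exact hrow b a hb1 hb2 hbB
      · have h0 := hcol b a ha1 ha2 haC
        rw [if_neg (fun h : b ∈ B ∧ a ∈ C => haC h.2), add_zero, h0]
        split_ifs <;> rfl

theorem fac_detP (E : Matrix (Fin n) (Fin n) R) (N2 : Finset (Fin n))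
    (hlow : ∀ b a, b < a → E b a = 0) (hdiag : ∀ a, a ∈ N2 → E a a = 1) :
    (facP E N2).det = 1 := by
  rw [Matrix.det_of_isLowerTriangular]
  · refine Finset.prod_eq_one fun i _ => ?_
    rw [facP_apply]
    by_cases hi : i ∈ N2
    · rw [if_pos hi, hdiag i hi]
    · rw [if_neg hi, if_pos rfl]
  · intro i j hij
    have hij' : i < j := hij
    rw [facP_apply]
    by_cases hj : j ∈ N2
    · rw [if_pos hj, hlow i j hij']
    · rw [if_neg hj, if_neg hij'.ne]

theorem fac_detQ (E : Matrix (Fin n) (Fin n) R) (N1 N2 : Finset (Fin n))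
    (hlow : ∀ b a, b < a → E b a = 0) (hdiag : ∀ a, a ∈ N1 → E a a = 1) :
    (facQ E N1 N2).det = 1 := by
  rw [Matrix.det_of_isLowerTriangular]
  · refine Finset.prod_eq_one fun i _ => ?_
    rw [facQ_apply]
    by_cases hi : i ∈ N1 ∧ i ∉ N2
    · rw [if_pos hi, hdiag i hi.1]
    · rw [if_neg hi, if_pos rfl]
  · intro i j hij
    have hij' : i < j := hij
    rw [facQ_apply]
    by_cases hj : i ∈ N1 ∧ j ∉ N2
    · rw [if_pos hj, hlow i j hij']
    · rw [if_neg hj, if_neg hij'.ne]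

end

theorem fac {n : ℕ} {R : Type*} [CommRing R] (E : Matrix (Fin n) (Fin n) R)
    (N1 N2 B C : Finset (Fin n)) (h12 : Disjoint N1 N2) (h1B : Disjoint N1 B)
    (h2B : Disjoint N2 B) (h1C : Disjoint N1 C) (h2C : Disjoint N2 C) (hBC : Disjoint B C)
    (hrow : ∀ b a, b ∉ N1 → b ∉ N2 → b ∉ B → E b a = 0)
    (hcol : ∀ b a, a ∉ N1 → a ∉ N2 → a ∉ C → E b a = 0)
    (hlow : ∀ b a, b < a → E b a = 0) (hdiag : ∀ a, a ∈ N1 ∨ a ∈ N2 → E a a = 1)
    (h21 : ∀ b ∈ N2, ∀ a ∈ N1, E b a = 0) (h2C0 : ∀ b ∈ N2, ∀ a ∈ C, E b a = 0)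
    (hB1 : ∀ b ∈ B, ∀ a ∈ N1, E b a = 0) (s : R) :
    ∃ P Q : Matrix (Fin n) (Fin n) R,
      (Matrix.of fun b a => if b = a then E b a else s * E b a) = P * E * Q := by
  set E' : Matrix (Fin n) (Fin n) R :=
    Matrix.of fun b a => if b = a then E b a else s * E b a with hE'
  have hz : ∀ b a, E b a = 0 → E' b a = 0 := by
    intro b a h
    rw [hE', Matrix.of_apply, h, mul_zero]
    split_ifs <;> rfl
  have e1 := fac_eq E N1 N2 B C h12 h1B h2B h1C h2C hrow hcol h21 h2C0 hB1
  have e2 := fac_eq E' N1 N2 B C h12 h1B h2B h1C h2C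
    (fun b a h1 h2 h3 => hz b a (hrow b a h1 h2 h3))
    (fun b a h1 h2 h3 => hz b a (hcol b a h1 h2 h3))
    (fun b hb a ha => hz b a (h21 b hb a ha)) (fun b hb a ha => hz b a (h2C0 b hb a ha))
    (fun b hb a ha => hz b a (hB1 b hb a ha))
  have d1 : (facP E N2).det = 1 := fac_detP E N2 hlow fun a ha => hdiag a (Or.inr ha)
  have d2 : (facQ E N1 N2).det = 1 := fac_detQ E N1 N2 hlow fun a ha => hdiag a (Or.inl ha)
  have u1 : IsUnit (facP E N2).det := by rw [d1]; exact isUnit_one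
  have u2 : IsUnit (facQ E N1 N2).det := by rw [d2]; exact isUnit_one
  have hD : facD E' N1 N2 B C =
      Matrix.diagonal (fun b => if b ∈ B then s else 1) * facD E N1 N2 B C := by
    ext b a
    rw [Matrix.diagonal_mul]
    by_cases ha : a ∈ N1 ∨ a ∈ N2
    · have haC : a ∉ C := by
        rcases ha with h | h
        · exact Finset.disjoint_left.1 h1C h
        · exact Finset.disjoint_left.1 h2C h
      by_cases hba : b = a
      · have hbB : b ∉ B := by
          rw [hba]
          rcases ha with h | h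
          · exact Finset.disjoint_left.1 h1B h
          · exact Finset.disjoint_left.1 h2B h
        rw [if_neg hbB, hba, facD_self E ha, facD_self E' ha, mul_one]
      · rw [facD_off E haC hba, facD_off E' haC hba, mul_zero]
    · rw [facD_not E ha, facD_not E' ha]
      by_cases h2 : b ∈ B ∧ a ∈ C
      · have hba : b ≠ a := by
          intro h
          exact Finset.disjoint_left.1 hBC h2.1 (h ▸ h2.2)
        rw [if_pos h2, if_pos h2, if_pos h2.1, hE', Matrix.of_apply, if_neg hba]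
      · rw [if_neg h2, if_neg h2, mul_zero]
  refine ⟨facP E' N2 * Matrix.diagonal (fun b => if b ∈ B then s else 1) * (facP E N2)⁻¹,
    (facQ E N1 N2)⁻¹ * facQ E' N1 N2, ?_⟩
  calc E' = facP E' N2 * facD E' N1 N2 B C * facQ E' N1 N2 := e2
    _ = facP E' N2 * (Matrix.diagonal (fun b => if b ∈ B then s else 1) *
        facD E N1 N2 B C) * facQ E' N1 N2 := by rw [hD]
    _ = facP E' N2 * Matrix.diagonal (fun b => if b ∈ B then s else 1) *
        (facP E N2)⁻¹ * (facP E N2 * facD E N1 N2 B C * facQ E N1 N2) *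
        ((facQ E N1 N2)⁻¹ * facQ E' N1 N2) := by
      have a1 : (facP E N2)⁻¹ * facP E N2 = 1 := Matrix.nonsing_inv_mul _ u1
      have a2 : facQ E N1 N2 * (facQ E N1 N2)⁻¹ = 1 := Matrix.mul_nonsing_inv _ u2
      calc facP E' N2 * (Matrix.diagonal (fun b => if b ∈ B then s else 1) *
          facD E N1 N2 B C) * facQ E' N1 N2
          = facP E' N2 * Matrix.diagonal (fun b => if b ∈ B then s else 1) * 1 *
            facD E N1 N2 B C * 1 * facQ E' N1 N2 := by
              simp only [Matrix.mul_one, Matrix.mul_assoc]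
        _ = facP E' N2 * Matrix.diagonal (fun b => if b ∈ B then s else 1) *
            ((facP E N2)⁻¹ * facP E N2) * facD E N1 N2 B C *
            (facQ E N1 N2 * (facQ E N1 N2)⁻¹) * facQ E' N1 N2 := by rw [a1, a2]
        _ = _ := by simp only [Matrix.mul_assoc]
    _ = _ := by rw [← e1]

end Pool.Agent.H30.KL
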