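import Pool.Agent.H30.KL.Cov.S1
import Pool.Agent.H30.KL.Cov.Fac

/-!
# Sufficiency (COV-3b)

`θ s` is the substitution `z ↦ s z`.  `hom_of_scale`: if `θ s f ∈ I` for all `f ∈ I`, `s : ℂ` then `I` is homogeneous (Vandermonde:
`θ s f = ∑ k, s ^ k • f_k`; choose `N + 1` different `s`; or: the span over `ℂ` of the values at infinitely many points contains the coefficients).
`minor_scale`: `(i,j)` essential without bad chain.  Work in `R = MvPolynomial (Free u) ℂ ⧸ klIdeal u v`; vertices as indices: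
`E b a = if i ≤ u b ∧ a ≤ j then mk (Zmat u (u b) a) else 0`;
`N1 = {k | k ≤ j ∧ i ≤ u k ∧ ∃ c, Reach u v i j c k}`, `N2 = {k | k ≤ j ∧ i ≤ u k} \ N1`, `B = {b | j < b ∧ i ≤ u b}`, `C = {a | a ≤ j ∧ u a < i}`; the entries of
non `Up` pairs vanish in `R` by `entry_mem`.  `fac` and `minor_mul_mem` (`J = ⊥`).
-/

open MvPolynomial Matrix

namespace Pool.Agent.H30.KL

variable {n : ℕ}

/-- substitution `z ↦ s z` -/
noncomputable def theta {σ : Type*} (s : ℂ) : MvPolynomial σ ℂ →ₐ[ℂ] MvPolynomial σ ℂ :=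
  aeval fun x => C s * X x

theorem theta_X {σ : Type*} (s : ℂ) (x : σ) : theta s (X x) = C s * X x := by
  rw [theta, aeval_X]

theorem theta_monomial {σ : Type*} (s : ℂ) (d : σ →₀ ℕ) (c : ℂ) :
    theta s (monomial d c) = s ^ (d.degree) • monomial d c := by
  rw [theta, aeval_monomial]
  have h1 : (d.prod fun i k => (C s * X i : MvPolynomial σ ℂ) ^ k) =
      C (s ^ d.degree) * d.prod fun i k => (X i : MvPolynomial σ ℂ) ^ k := by
    simp only [Finsupp.prod, mul_pow]
    rw [Finset.prod_mul_distrib, Finset.prod_pow_eq_pow_sum, ← map_pow]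
    rfl
  rw [h1, ← mul_assoc, mul_comm (algebraMap _ _ c), mul_assoc, smul_eq_C_mul]
  congr 1
  rw [monomial_eq]
  rfl

theorem theta_homogeneous {σ : Type*} (s : ℂ) {p : MvPolynomial σ ℂ} {k : ℕ}
    (hp : p.IsHomogeneous k) : theta s p = s ^ k • p := by
  conv_lhs => rw [p.as_sum]
  conv_rhs => rw [p.as_sum]
  rw [map_sum, Finset.smul_sum]
  apply Finset.sum_congr rfl
  intro d hd
  rw [theta_monomial]
  have h1 : d.degree = k := by
    have h2 := hp (mem_support_iff.1 hd)
    rw [← h2, Finsupp.degree_eq_weight_one]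
    rfl
  rw [h1]

attribute [local instance] MvPolynomial.gradedAlgebra

theorem hom_of_scale {σ : Type*} {I : Ideal (MvPolynomial σ ℂ)}
    (h : ∀ (s : ℂ), ∀ f ∈ I, theta s f ∈ I) :
    I.IsHomogeneous (homogeneousSubmodule σ ℂ) := by
  intro k f hf
  set N := f.totalDegree with hN
  have h1 : ∀ s : ℂ, theta s f = ∑ a : Fin (N + 1), s ^ (a : ℕ) • homogeneousComponent (a : ℕ) f := by
    intro s
    conv_lhs => rw [← sum_homogeneousComponent f]
    rw [map_sum, ← Fin.sum_univ_eq_sum_range (fun i => theta s (homogeneousComponent i f))]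
    apply Finset.sum_congr rfl
    intro a _
    exact theta_homogeneous s (homogeneousComponent_isHomogeneous _ _)
  have hdec : ((DirectSum.decompose (homogeneousSubmodule σ ℂ) f k : homogeneousSubmodule σ ℂ k) :
      MvPolynomial σ ℂ) = homogeneousComponent k f := by
    rw [← MvPolynomial.decomposition.decompose'_apply]
    rfl
  rw [hdec]
  by_cases hk : k < N + 1
  swap
  · rw [homogeneousComponent_eq_zero k f (by omega)]
    exact I.zero_mem
  set V : Matrix (Fin (N + 1)) (Fin (N + 1)) ℂ := Matrix.vandermonde fun a => ((a : ℕ) : ℂ) with hV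
  have hdet : V.det ≠ 0 := by
    rw [hV, Matrix.det_vandermonde_ne_zero_iff]
    intro a b hab
    have h2 : ((a : ℕ) : ℂ) = ((b : ℕ) : ℂ) := hab
    exact Fin.ext (Nat.cast_injective h2)
  have hinv : V⁻¹ * V = 1 := Matrix.nonsing_inv_mul _ (isUnit_iff_ne_zero.2 hdet)
  have h3 : homogeneousComponent k f =
      ∑ a : Fin (N + 1), V⁻¹ ⟨k, hk⟩ a • theta (((a : ℕ) : ℂ)) f := by
    simp only [h1, Finset.smul_sum, smul_smul]
    rw [Finset.sum_comm]
    simp only [← Finset.sum_smul]
    have h4 : ∀ b : Fin (N + 1), (∑ a : Fin (N + 1), V⁻¹ ⟨k, hk⟩ a * ((a : ℕ) : ℂ) ^ (b : ℕ)) =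
        if (⟨k, hk⟩ : Fin (N + 1)) = b then 1 else 0 := by
      intro b
      have h5 := congrFun (congrFun hinv ⟨k, hk⟩) b
      rw [Matrix.mul_apply, Matrix.one_apply] at h5
      rw [← h5]
      rfl
    simp only [h4, ite_smul, one_smul, zero_smul]
    rw [Finset.sum_ite_eq Finset.univ]
    rw [if_pos (Finset.mem_univ _)]
  rw [h3]
  refine Ideal.sum_mem _ fun a _ => ?_
  rw [smul_eq_C_mul]
  exact I.mul_mem_left _ (h _ _ hf)

section

variable (u v : Equiv.Perm (Fin n)) (i j : Fin n)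

/-- the matrix of the box in the quotient ring -/
noncomputable def boxE : Matrix (Fin n) (Fin n) (MvPolynomial (Free u) ℂ ⧸ klIdeal u v) :=
  Matrix.of fun b a => if i ≤ u b ∧ a ≤ j then Ideal.Quotient.mk (klIdeal u v) (Zmat u (u b) a) else 0

open Classical in
/-- reachable `NW` vertices -/
noncomputable def setN1 : Finset (Fin n) :=
  Finset.univ.filter fun k => k ≤ j ∧ i ≤ u k ∧ ∃ c, Reach u v i j c k

open Classical in
/-- unreachable `NW` vertices -/
noncomputable def setN2 : Finset (Fin n) :=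
  Finset.univ.filter fun k => k ≤ j ∧ i ≤ u k ∧ ¬ ∃ c, Reach u v i j c k

/-- `NE` vertices -/
def setB : Finset (Fin n) := Finset.univ.filter fun k => j < k ∧ i ≤ u k

/-- `SW` vertices -/
def setC : Finset (Fin n) := Finset.univ.filter fun k => k ≤ j ∧ u k < i

variable {u v i j}

theorem boxE_apply (b a : Fin n) : boxE u v i j b a =
    if i ≤ u b ∧ a ≤ j then Ideal.Quotient.mk (klIdeal u v) (Zmat u (u b) a) else 0 := rfl

theorem mem_setN1 {k : Fin n} : k ∈ setN1 u v i j ↔ k ≤ j ∧ i ≤ u k ∧ ∃ c, Reach u v i j c k := by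
  simp [setN1]

theorem mem_setN2 {k : Fin n} : k ∈ setN2 u v i j ↔ k ≤ j ∧ i ≤ u k ∧ ¬ ∃ c, Reach u v i j c k := by
  simp [setN2]

theorem mem_setB {k : Fin n} : k ∈ setB u i j ↔ j < k ∧ i ≤ u k := by
  simp [setB]

theorem mem_setC {k : Fin n} : k ∈ setC u i j ↔ k ≤ j ∧ u k < i := by
  simp [setC]

theorem boxE_zero (huv : BruhatLE u v) (hc : ∀ i j, Ess v i j → ¬ BadChain u v i j)
    {b a : Fin n} (hab : a ≠ b) (h : ¬ Up u v a b) : boxE u v i j b a = 0 := by
  rw [boxE_apply]
  split_ifs with h1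
  · exact Ideal.Quotient.eq_zero_iff_mem.2 (entry_mem huv hc hab h)
  · rfl

theorem Zmat_zero_of_lt (u : Equiv.Perm (Fin n)) {a b : Fin n} (h : b < a) :
    Zmat u (u b) a = 0 := by
  by_contra hcon
  rcases entry_ne_zero hcon with h1 | h1
  · exact absurd h1 h.ne'
  · exact absurd (h.trans h1.1) (lt_irrefl _)

theorem det_boxE {m : ℕ} (hm : m = rk v i j + 1) (f g : Fin m → Fin n) :
    ((boxE u v i j).submatrix f g).det = 0 := by
  by_cases h1 : ∀ x, i ≤ u (f x)
  swap
  · push Not at h1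
    obtain ⟨x, hx⟩ := h1
    apply Matrix.det_eq_zero_of_row_eq_zero x
    intro y
    rw [Matrix.submatrix_apply, boxE_apply, if_neg]
    rintro ⟨h2, -⟩
    exact absurd hx (not_lt.2 h2)
  by_cases h2 : ∀ y, g y ≤ j
  swap
  · push Not at h2
    obtain ⟨y, hy⟩ := h2
    apply Matrix.det_eq_zero_of_column_eq_zero y
    intro x
    rw [Matrix.submatrix_apply, boxE_apply, if_neg]
    rintro ⟨-, h3⟩
    exact absurd hy (not_lt.2 h3)
  have h3 : (boxE u v i j).submatrix f g =
      (Ideal.Quotient.mk (klIdeal u v)).mapMatrix ((Zmat u).submatrix (fun x => u (f x)) g) := by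
    ext x y
    rw [Matrix.submatrix_apply, boxE_apply, if_pos ⟨h1 x, h2 y⟩]
    rfl
  rw [h3, ← RingHom.map_det]
  exact Ideal.Quotient.eq_zero_iff_mem.2 (det_mem_klIdeal u v hm _ _ h1 h2)

theorem theta_Zmat (u : Equiv.Perm (Fin n)) (s : ℂ) (b a : Fin n) :
    theta s (Zmat u (u b) a) = if b = a then Zmat u (u b) a else C s * Zmat u (u b) a := by
  by_cases hba : b = a
  · subst hba
    rw [if_pos rfl, entry_diag, map_one]
  · rw [if_neg hba]
    simp only [Zmat, Matrix.of_apply]
    by_cases h1 : u a < u b ∧ a < u.symm (u b)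
    · rw [dif_pos h1, theta_X]
    · rw [dif_neg h1, if_neg, map_zero, mul_zero]
      intro h2
      exact hba (u.injective h2).symm

end

theorem minor_scale {u v : Equiv.Perm (Fin n)} (huv : BruhatLE u v)
    (hc : ∀ i j, Ess v i j → ¬ BadChain u v i j) {i j : Fin n} (hE : Ess v i j) (s : ℂ) {m : ℕ}
    (hm : m = rk v i j + 1) (f g : Fin m → Fin n) (hf : ∀ a, i ≤ f a) (hg : ∀ b, g b ≤ j) :
    theta s ((Zmat u).submatrix f g).det ∈ klIdeal u v := by
  obtain ⟨P, Q, hPQ⟩ := fac (boxE u v i j) (setN1 u v i j) (setN2 u v i j) (setB u i j) (setC u i j)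
    (by
      rw [Finset.disjoint_left]
      intro k h1 h2
      exact (mem_setN2.1 h2).2.2 (mem_setN1.1 h1).2.2)
    (by
      rw [Finset.disjoint_left]
      intro k h1 h2
      exact absurd (mem_setN1.1 h1).1 (not_le.2 (mem_setB.1 h2).1))
    (by
      rw [Finset.disjoint_left]
      intro k h1 h2
      exact absurd (mem_setN2.1 h1).1 (not_le.2 (mem_setB.1 h2).1))
    (by
      rw [Finset.disjoint_left]
      intro k h1 h2
      exact absurd (mem_setN1.1 h1).2.1 (not_le.2 (mem_setC.1 h2).2))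
    (by
      rw [Finset.disjoint_left]
      intro k h1 h2
      exact absurd (mem_setN2.1 h1).2.1 (not_le.2 (mem_setC.1 h2).2))
    (by
      rw [Finset.disjoint_left]
      intro k h1 h2
      exact absurd (mem_setC.1 h2).1 (not_le.2 (mem_setB.1 h1).1))
    (by
      intro b a h1 h2 h3
      rw [boxE_apply, if_neg]
      rintro ⟨h4, -⟩
      rcases le_or_gt b j with h5 | h5
      · by_cases h6 : ∃ c, Reach u v i j c b
        · exact h1 (mem_setN1.2 ⟨h5, h4, h6⟩)
        · exact h2 (mem_setN2.2 ⟨h5, h4, h6⟩)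
      · exact h3 (mem_setB.2 ⟨h5, h4⟩))
    (by
      intro b a h1 h2 h3
      rw [boxE_apply, if_neg]
      rintro ⟨-, h4⟩
      rcases le_or_gt i (u a) with h5 | h5
      · by_cases h6 : ∃ c, Reach u v i j c a
        · exact h1 (mem_setN1.2 ⟨h4, h5, h6⟩)
        · exact h2 (mem_setN2.2 ⟨h4, h5, h6⟩)
      · exact h3 (mem_setC.2 ⟨h4, h5⟩))
    (by
      intro b a hba
      rw [boxE_apply, Zmat_zero_of_lt u hba, map_zero]
      split_ifs <;> rfl)
    (by
      intro a ha
      have h1 : i ≤ u a ∧ a ≤ j := by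
        rcases ha with ha | ha
        · exact ⟨(mem_setN1.1 ha).2.1, (mem_setN1.1 ha).1⟩
        · exact ⟨(mem_setN2.1 ha).2.1, (mem_setN2.1 ha).1⟩
      rw [boxE_apply, if_pos h1, entry_diag, map_one])
    (by
      intro b hb a ha
      have hb' := mem_setN2.1 hb
      have ha' := mem_setN1.1 ha
      apply boxE_zero huv hc
      · rintro rfl
        exact hb'.2.2 ha'.2.2
      · intro hU
        obtain ⟨c, hR⟩ := ha'.2.2
        exact hb'.2.2 ⟨c, Reach.step hR hU hb'.1 hb'.2.1⟩)
    (by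
      intro b hb a ha
      have hb' := mem_setN2.1 hb
      have ha' := mem_setC.1 ha
      apply boxE_zero huv hc
      · rintro rfl
        exact absurd hb'.2.1 (not_le.2 ha'.2)
      · intro hU
        exact hb'.2.2 ⟨a, Reach.base ha'.2 hU hb'.1 hb'.2.1⟩)
    (by
      intro b hb a ha
      have hb' := mem_setB.1 hb
      have ha' := mem_setN1.1 ha
      apply boxE_zero huv hc
      · rintro rfl
        exact absurd ha'.1 (not_le.2 hb'.1)
      · intro hU
        obtain ⟨c, hR⟩ := ha'.2.2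
        exact hc i j hE ⟨c, a, b, hR, hU, hb'.1⟩)
    (Ideal.Quotient.mk (klIdeal u v) (C s))
  rw [← Ideal.Quotient.eq_zero_iff_mem]
  have h1 : Ideal.Quotient.mk (klIdeal u v) (theta s ((Zmat u).submatrix f g).det) =
      ((P * boxE u v i j * Q).submatrix (fun x => u.symm (f x)) g).det := by
    rw [← hPQ]
    have h2 : theta s ((Zmat u).submatrix f g).det =
        (((theta s : MvPolynomial (Free u) ℂ →ₐ[ℂ] MvPolynomial (Free u) ℂ) :
          MvPolynomial (Free u) ℂ →+* MvPolynomial (Free u) ℂ).mapMatrix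
          ((Zmat u).submatrix f g)).det := by
      rw [← RingHom.map_det]
      rfl
    rw [h2, RingHom.map_det]
    congr 1
    ext x y
    have h3 : f x = u (u.symm (f x)) := (Equiv.apply_symm_apply _ _).symm
    have h4 : i ≤ u (u.symm (f x)) ∧ g y ≤ j := by
      rw [← h3]
      exact ⟨hf x, hg y⟩
    change Ideal.Quotient.mk (klIdeal u v) (theta s (Zmat u (f x) (g y))) =
      if u.symm (f x) = g y then boxE u v i j (u.symm (f x)) (g y) else
        Ideal.Quotient.mk (klIdeal u v) (C s) * boxE u v i j (u.symm (f x)) (g y)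
    rw [boxE_apply, if_pos h4]
    conv_lhs => rw [h3]
    rw [theta_Zmat]
    split_ifs
    · rfl
    · rw [map_mul]
  rw [h1]
  have h5 := minor_mul_mem (⊥ : Ideal (MvPolynomial (Free u) ℂ ⧸ klIdeal u v)) P (boxE u v i j) Q
    (m := m) (fun f g => by rw [det_boxE hm f g]; exact Ideal.zero_mem _)
    (fun x => u.symm (f x)) g
  exact (Ideal.mem_bot).1 h5

/-- **sufficiency**, for all `v` -/
theorem suff {u v : Equiv.Perm (Fin n)} (hc : ∀ i j, Ess v i j → ¬ BadChain u v i j) :
    Hom u v := by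
  by_cases huv : BruhatLE u v
  · apply hom_of_scale
    intro s f hf
    have h1 : klIdeal u v ≤ (klIdeal u v).comap (theta s) :=
      klIdeal_le_of_ess u v fun i j hE m f g hm h2 h3 => minor_scale huv hc hE s hm f g h2 h3
    exact h1 hf
  · rw [Hom, klIdeal_top huv]
    exact Ideal.IsHomogeneous.top _

end Pool.Agent.H30.KL
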