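import Pool.Agent.H30.KL.Cov.Nec
import Pool.Agent.H30.KL.Cov.S2

/-!
# The covexillary case

`bad_of_reach`: induction on `Reach`.  `base`: the three vertices `c`, `k`, `r` are `Bad`.  `step` (`k0 → k → r`): if `Up u v k0 r` use the induction hypothesis
for `k0`; otherwise (`sep_of_not_le`) an essential box `(i',j')` with `rk u = rk v` separates `(k0,r)`; it does not separate `(k0,k)`, `(k,r)`
(`lt_of_swap_le`), and `j' < k`, `u k < i'` would contradict `not_nested`; so `k ≤ j'`, `i' ≤ u k` and `k0`, `k`, `r` are `Bad` with the box `(i',j')`.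
-/

namespace Pool.Agent.H30.KL

variable {n : ℕ}

theorem bad_of_reach {u v : Equiv.Perm (Fin n)} (hv : Avoids3412 v) {i j : Fin n}
    (hE : Ess v i j) {c k : Fin n} (h : Reach u v i j c k) :
    ∀ r, Up u v k r → j < r → Bad u v := by
  induction h with
  | base huc hU hkj hik =>
    rename_i k
    intro r hr hjr
    exact ⟨i, j, c, k, r, hE, hU.1, hkj, hjr, huc, hik, hr.2.1, hU.2.2, hr.2.2⟩
  | step hR hU hkj hik ih =>
    rename_i k0 k
    intro r hr hjr
    have huv : BruhatLE u v := le_of_swap hU.1 hU.2.1 hU.2.2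
    by_cases h0 : BruhatLE (u * Equiv.swap k0 r) v
    · exact ih r ⟨hU.1.trans hr.1, hU.2.1.trans hr.2.1, h0⟩ hjr
    · obtain ⟨i', j', hE', a1, a2, a3, a4, a5⟩ :=
        sep_of_not_le huv (hU.1.trans hr.1) (hU.2.1.trans hr.2.1) h0
      have hk1 : ¬ (k ≤ j' ∧ u k < i') := by
        rintro ⟨b1, b2⟩
        exact absurd (lt_of_swap_le hr.1 hr.2.1 hr.2.2 b1 a2 b2 a4) (by omega)
      have hk2 : ¬ (j' < k ∧ i' ≤ u k) := by
        rintro ⟨b1, b2⟩
        exact absurd (lt_of_swap_le hU.1 hU.2.1 hU.2.2 a1 b1 a3 b2) (by omega)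
      have hk3 : ¬ (j' < k ∧ u k < i') := by
        rintro ⟨b1, b2⟩
        exact not_nested hv hE hE' (lt_of_le_of_lt hik b2) (lt_of_lt_of_le b1 hkj)
      have hkj' : k ≤ j' := by
        by_contra hcon
        rw [not_le] at hcon
        rcases lt_or_ge (u k) i' with h | h
        · exact hk3 ⟨hcon, h⟩
        · exact hk2 ⟨hcon, h⟩
      have hik' : i' ≤ u k := by
        by_contra hcon
        rw [not_le] at hcon
        exact hk1 ⟨hkj', hcon⟩
      exact ⟨i', j', k0, k, r, hE', hU.1, hkj', a2, a3, hik', hr.2.1, hU.2.2, hr.2.2⟩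

/-- **Theorem.** covexillary `v` -/
theorem covex {u v : Equiv.Perm (Fin n)} (hv : Avoids3412 v) : Hom u v ↔ ¬ Bad u v := by
  constructor
  · rintro h ⟨i, j, c, k, r, hE, hck, hkj, hjr, huc, huk, hur, h1, h2⟩
    by_cases ht : ∃ i' j', Ess v i' j' ∧ c ≤ j' ∧ j' < r ∧ u c < i' ∧ i' ≤ u r ∧
        rk u i' j' = rk v i' j'
    · exact nec1 hv hE hck hkj hjr huc huk hur h1 h2 ht h
    · push Not at ht
      refine nec2 hv hE hck hkj hjr huc huk hur h1 ?_ h
      intro p q hpq a1 a2 a3 a4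
      exact lt_of_le_of_ne (le_of_swap hck (huc.trans_le huk) h1 p q) (ht p q hpq a1 a2 a3 a4)
  · intro h
    apply suff
    rintro i j hE ⟨c, k, r, hR, hU, hr⟩
    exact h (bad_of_reach hv hE hR r hU hr)

end Pool.Agent.H30.KL
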