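import Pool.Agent.H30.KL.Cov.Defs

/-!
# The obstruction with extra transpositions (COV-4)

`τ` is an involution of the positions with `u x < u (τ x)` whenever `x < τ x`, and fixes `c`, `k`, `r`.  `S = {x | x < τ x}`.
`zpt2`: the point of the cell with entries `1` at `(u k, c)`, `(u r, k)`, `(u r, c)` and `(u (τ x), x)`, `x ∈ S`.
`pt u (t • zpt2) = A * blk (u * τ) c k r t * B'` with (`t ≠ 0`) `A p x = [x = p] + [p = u y, x = u (τ y), y ∈ S] (1/t)` upper triangular,
`B' q' q = if q' = q then (if q < τ q then t else if τ q < q then -1/t else 1) else if q' < q ∧ q' = τ q then 1 else 0` upper triangular.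
(`blk (u * τ) c k r t` has the same three block entries because `τ` fixes `c`, `k`, `r`; column `x ∈ S`: `1` in row `u (τ x)`; column `τ x`: `1` in row `u x`.)
Then `rank_box_mul`, `blk_one`, `blk_two` for `u * τ` as in `obstruction` (`Obst.lean`).
-/

open MvPolynomial Matrix

namespace Pool.Agent.H30.KL

variable {n : ℕ}

/-- the point of the cell -/
noncomputable def zpt2 (u : Equiv.Perm (Fin n)) (a k c : Fin n) (τ : Equiv.Perm (Fin n)) :
    Free u → ℂ := fun x =>
  if (x.1.1 = u k ∧ x.1.2 = a) ∨ (x.1.1 = u c ∧ x.1.2 = k) ∨ (x.1.1 = u c ∧ x.1.2 = a) ∨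
    (x.1.2 < τ x.1.2 ∧ x.1.1 = u (τ x.1.2)) then 1 else 0

/-- row operations for the pairs `y < τ y` -/
noncomputable def obsA (u τ : Equiv.Perm (Fin n)) (t : ℂ) : Matrix (Fin n) (Fin n) ℂ :=
  Matrix.of fun p x => (if x = p then 1 else 0) +
    if u.symm p < τ (u.symm p) then (if x = u (τ (u.symm p)) then 1 / t else 0) else 0

/-- the diagonal of the column operations -/
noncomputable def obsβ (τ : Equiv.Perm (Fin n)) (t : ℂ) (q : Fin n) : ℂ :=
  if q < τ q then t else if τ q < q then -1 / t else 1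

/-- column operations for the pairs `y < τ y` -/
noncomputable def obsB (τ : Equiv.Perm (Fin n)) (t : ℂ) : Matrix (Fin n) (Fin n) ℂ :=
  Matrix.of fun q' q => (if q' = q then obsβ τ t q else 0) +
    if τ q < q then (if q' = τ q then 1 else 0) else 0

theorem obsA_mul (u τ : Equiv.Perm (Fin n)) (t : ℂ) (M : Matrix (Fin n) (Fin n) ℂ) (y q : Fin n) :
    (obsA u τ t * M) (u y) q = M (u y) q + if y < τ y then 1 / t * M (u (τ y)) q else 0 := by
  rw [mul_apply]
  simp only [obsA, of_apply, add_mul, Finset.sum_add_distrib, Equiv.symm_apply_apply]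
  split_ifs <;> simp

theorem obs_mulB (τ : Equiv.Perm (Fin n)) (t : ℂ) (M : Matrix (Fin n) (Fin n) ℂ) (p q : Fin n) :
    (M * obsB τ t) p q = M p q * obsβ τ t q + if τ q < q then M p (τ q) else 0 := by
  rw [mul_apply]
  simp only [obsB, of_apply, mul_add, Finset.sum_add_distrib]
  split_ifs <;> simp

theorem obsA_upper {u τ : Equiv.Perm (Fin n)} (hu : ∀ x, x < τ x → u x < u (τ x)) (t : ℂ) :
    Upper (obsA u τ t) := by
  intro p q hpq
  obtain ⟨y, rfl⟩ := u.surjective p
  simp only [obsA, of_apply, Equiv.symm_apply_apply]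
  rw [if_neg hpq.ne, zero_add]
  split_ifs with h1 h2
  · exact absurd (h2 ▸ hpq) (not_lt.2 (hu y h1).le)
  · rfl
  · rfl

theorem obsA_unit {u τ : Equiv.Perm (Fin n)} (hu : ∀ x, x < τ x → u x < u (τ x)) (t : ℂ) :
    IsUnit (obsA u τ t) := by
  refine (obsA_upper hu t).isUnit fun p => ?_
  obtain ⟨y, rfl⟩ := u.surjective p
  simp only [obsA, of_apply, Equiv.symm_apply_apply, if_true]
  split_ifs with h1 h2
  · exact absurd (u.injective h2) h1.ne
  · simp
  · simp

theorem obsB_upper (τ : Equiv.Perm (Fin n)) (t : ℂ) : Upper (obsB τ t) := by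
  intro p q hpq
  simp only [obsB, of_apply]
  rw [if_neg hpq.ne', zero_add]
  split_ifs with h1 h2
  · exact absurd (h2 ▸ hpq) (not_lt.2 h1.le)
  · rfl
  · rfl

theorem obsβ_ne (τ : Equiv.Perm (Fin n)) {t : ℂ} (ht : t ≠ 0) (q : Fin n) : obsβ τ t q ≠ 0 := by
  unfold obsβ
  split_ifs
  · exact ht
  · exact div_ne_zero (by simp) ht
  · exact one_ne_zero

theorem obsB_unit (τ : Equiv.Perm (Fin n)) {t : ℂ} (ht : t ≠ 0) : IsUnit (obsB τ t) := by
  refine (obsB_upper τ t).isUnit fun q => ?_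
  simp only [obsB, of_apply, if_true]
  split_ifs with h1 h2
  · exact absurd h2 h1.ne'
  · rw [add_zero]; exact obsβ_ne τ ht q
  · rw [add_zero]; exact obsβ_ne τ ht q

theorem pt_zpt2_apply {u τ : Equiv.Perm (Fin n)}
    (hu : ∀ x, x < τ x → u x < u (τ x)) {a k c : Fin n} (h12 : a < k) (h23 : k < c)
    (g12 : u a < u k) (g23 : u k < u c) (t : ℂ) (y q : Fin n) :
    pt u (fun i => t * zpt2 u a k c τ i) (u y) q = (if q = y then 1 else 0) +
      if (y = k ∧ q = a) ∨ (y = c ∧ q = k) ∨ (y = c ∧ q = a) ∨ (q < τ q ∧ y = τ q) then t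
      else 0 := by
  rw [pt_apply]
  have h13 := h12.trans h23
  have g13 := g12.trans g23
  have hz : ∀ h : u q < u y ∧ q < u.symm (u y), zpt2 u a k c τ ⟨(u y, q), h⟩ =
      if (y = k ∧ q = a) ∨ (y = c ∧ q = k) ∨ (y = c ∧ q = a) ∨ (q < τ q ∧ y = τ q) then 1
      else 0 := by
    intro h
    simp only [zpt2, u.injective.eq_iff]
  by_cases hP : (y = k ∧ q = a) ∨ (y = c ∧ q = k) ∨ (y = c ∧ q = a) ∨ (q < τ q ∧ y = τ q)
  · have h1 : u q < u y ∧ q < u.symm (u y) := by
      rw [Equiv.symm_apply_apply]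
      rcases hP with ⟨rfl, rfl⟩ | ⟨rfl, rfl⟩ | ⟨rfl, rfl⟩ | ⟨h, rfl⟩
      · exact ⟨g12, h12⟩
      · exact ⟨g23, h23⟩
      · exact ⟨g13, h13⟩
      · exact ⟨hu q h, h⟩
    have h2 : q ≠ y := by
      rintro rfl
      exact lt_irrefl _ h1.1
    rw [dif_pos h1, hz, if_pos hP, if_neg h2, if_pos hP, mul_one, zero_add]
  · rw [if_neg hP, add_zero]
    by_cases h1 : u q < u y ∧ q < u.symm (u y)
    · have h2 : q ≠ y := by
        rintro rfl
        exact lt_irrefl _ h1.1
      rw [dif_pos h1, hz, if_neg hP, if_neg h2, mul_zero]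
    · rw [dif_neg h1]
      simp only [u.injective.eq_iff]

theorem obs_blk_apply {u τ : Equiv.Perm (Fin n)} {a k c : Fin n}
    (hk : τ k = k) (hc : τ c = c) (t : ℂ) (y q : Fin n) :
    blk (u * τ) a k c t (u y) q = (if τ q = y then 1 else 0) +
      if (y = k ∧ q = a) ∨ (y = c ∧ q = k) ∨ (y = c ∧ q = a) then t else 0 := by
  simp only [blk, of_apply, Equiv.Perm.mul_apply, hk, hc, u.injective.eq_iff]

/-- the factorisation -/
theorem pt_zpt2_eq {u τ : Equiv.Perm (Fin n)} (hττ : ∀ x, τ (τ x) = x)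
    (hu : ∀ x, x < τ x → u x < u (τ x)) {a k c : Fin n} (h12 : a < k) (h23 : k < c)
    (g12 : u a < u k) (g23 : u k < u c) (ha : τ a = a) (hk : τ k = k) (hc : τ c = c) {t : ℂ}
    (ht : t ≠ 0) :
    pt u (fun i => t * zpt2 u a k c τ i) = obsA u τ t * (blk (u * τ) a k c t * obsB τ t) := by
  ext p q
  obtain ⟨y, rfl⟩ := u.surjective p
  rw [pt_zpt2_apply hu h12 h23 g12 g23, obsA_mul, obs_mulB, obs_mulB]
  simp only [obs_blk_apply hk hc, hττ]
  -- `τ` does not move `a`, `k`, `c`
  have hmv : ∀ x, τ x ≠ x → x ≠ a ∧ x ≠ k ∧ x ≠ c := by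
    intro x hx
    refine ⟨?_, ?_, ?_⟩ <;> rintro rfl
    · exact hx ha
    · exact hx hk
    · exact hx hc
  have hinj : ∀ x y : Fin n, τ x = y ↔ x = τ y := by
    intro x y
    constructor
    · rintro rfl; rw [hττ]
    · rintro rfl; rw [hττ]
  have hinj2 : ∀ x y : Fin n, τ x = τ y ↔ x = y := fun x y => τ.injective.eq_iff
  by_cases hy : τ y = y
  · -- `y` is fixed
    have hyy : ¬ y < τ y := by rw [hy]; exact lt_irrefl y
    rw [if_neg hyy, add_zero]
    by_cases hq : τ q = q
    · have e1 : obsβ τ t q = 1 := by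
        unfold obsβ
        rw [hq, if_neg (lt_irrefl q), if_neg (lt_irrefl q)]
      rw [e1, mul_one, hq, if_neg (lt_irrefl q), add_zero]
      simp only [lt_irrefl, false_and, or_false]
    · obtain ⟨n1, n2, n3⟩ := hmv q hq
      have hqy : q ≠ y := by rintro rfl; exact hq hy
      have hty : τ q ≠ y := by
        intro h
        rw [hinj, hy] at h
        exact hqy h
      have ht1 : τ (τ q) ≠ τ q := by
        rw [hττ]; exact Ne.symm hq
      obtain ⟨m1, m2, m3⟩ := hmv (τ q) ht1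
      have hty' : y ≠ τ q := Ne.symm hty
      simp [n1, n2, n3, m1, m2, m3, hqy, hty, hty']
  · obtain ⟨n1, n2, n3⟩ := hmv y hy
    have hty1 : τ (τ y) ≠ τ y := by
      rw [hττ]; exact Ne.symm hy
    obtain ⟨m1, m2, m3⟩ := hmv (τ y) hty1
    rcases lt_or_gt_of_ne hy with h | h
    · -- `τ y < y`
      rw [if_neg (not_lt.2 h.le), add_zero]
      simp only [n2, n3, false_and, false_or, if_false, add_zero]
      by_cases q1 : q = τ y
      · subst q1
        have e1 : obsβ τ t (τ y) = t := by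
          unfold obsβ
          rw [hττ, if_pos h]
        rw [e1]
        simp [hττ, h, h.not_gt, hy]
      · have q2 : τ q ≠ y := fun h' => q1 ((hinj _ _).1 h')
        have q3 : y ≠ τ q := Ne.symm q2
        by_cases q4 : q = y
        · subst q4
          simp [h, hy, Ne.symm hy]
        · simp [q2, q3, q4]
    · -- `y < τ y`
      rw [if_pos h]
      simp only [n2, n3, m2, m3, false_and, false_or, if_false, add_zero]
      by_cases q1 : q = τ y
      · subst q1
        have e1 : obsβ τ t (τ y) = -1 / t := by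
          unfold obsβ
          rw [hττ, if_neg (not_lt.2 h.le), if_pos h]
        rw [e1]
        have hy' : y ≠ τ y := Ne.symm hy
        simp [hττ, h, h.not_gt, hy, hy']
        try (field_simp)
        try ring
      · have q2 : τ q ≠ y := fun h' => q1 ((hinj _ _).1 h')
        have q3 : y ≠ τ q := Ne.symm q2
        by_cases q4 : q = y
        · subst q4
          have e1 : obsβ τ t q = t := by
            unfold obsβ
            rw [if_pos h]
          rw [e1]
          simp [h, h.not_gt, hy, Ne.symm hy, ht]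
        · have q5 : τ q ≠ τ y := fun h' => q4 (τ.injective h')
          simp [q1, q2, q3, q4, q5]

/-- the factorisation -/
theorem pt_zpt2 {u τ : Equiv.Perm (Fin n)} (hττ : ∀ x, τ (τ x) = x)
    (hu : ∀ x, x < τ x → u x < u (τ x)) {a k c : Fin n} (h12 : a < k) (h23 : k < c)
    (g12 : u a < u k) (g23 : u k < u c) (ha : τ a = a) (hk : τ k = k) (hc : τ c = c) {t : ℂ}
    (ht : t ≠ 0) : ∃ A B : Matrix (Fin n) (Fin n) ℂ, Upper A ∧ Upper B ∧ IsUnit A ∧ IsUnit B ∧
      pt u (fun i => t * zpt2 u a k c τ i) = A * blk (u * τ) a k c t * B :=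
  ⟨obsA u τ t, obsB τ t, obsA_upper hu t, obsB_upper τ t, obsA_unit hu t, obsB_unit τ ht, by
    rw [pt_zpt2_eq hττ hu h12 h23 g12 g23 ha hk hc ht, mul_assoc]⟩

theorem obstruction2 {u v τ : Equiv.Perm (Fin n)} (h : Hom u v) (hττ : ∀ x, τ (τ x) = x)
    (hu : ∀ x, x < τ x → u x < u (τ x)) {a k c : Fin n} (h12 : a < k) (h23 : k < c)
    (g12 : u a < u k) (g23 : u k < u c) (ha : τ a = a) (hk : τ k = k) (hc : τ c = c)
    (hw : BruhatLE (w312 (u * τ) a k c) v) : BruhatLE (w321 (u * τ) a c) v := by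
  have G12 : (u * τ) a < (u * τ) k := by
    rw [Equiv.Perm.mul_apply, Equiv.Perm.mul_apply, ha, hk]; exact g12
  have G23 : (u * τ) k < (u * τ) c := by
    rw [Equiv.Perm.mul_apply, Equiv.Perm.mul_apply, hk, hc]; exact g23
  have h1 : InX v (pt u (fun i => 1 * zpt2 u a k c τ i)) := by
    obtain ⟨A, B, hA, hB, _, _, e⟩ := pt_zpt2 hττ hu h12 h23 g12 g23 ha hk hc (t := 1) one_ne_zero
    rw [e, blk_one (u * τ) h12 h23, ← mul_assoc (Ab _ _ _ _ _ _)]
    refine InX.mul ?_ hA hB
    intro i j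
    refine le_trans (rank_box_mul_le i j (upper_Ab G12 G23 _ _ _) (upper_Bb h12 h23 _)) ?_
    rw [rank_box_pm]
    exact hw i j
  have h2 : InX v (pt u (fun i => 2 * (1 * zpt2 u a k c τ i))) := h.scale h1 2
  have h3 : (fun i => (2 : ℂ) * (1 * zpt2 u a k c τ i)) = fun i => 2 * zpt2 u a k c τ i := by
    funext i
    rw [one_mul]
  obtain ⟨A, B, hA, hB, hA', hB', e⟩ :=
    pt_zpt2 hττ hu h12 h23 g12 g23 ha hk hc (t := 2) two_ne_zero
  rw [h3, e] at h2
  intro i j
  have h4 := h2 i j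
  rw [rank_box_mul i j hA hB hA' hB', blk_two (u * τ) h12 h23, ← mul_assoc,
    rank_box_mul i j (upper_Ab G12 G23 _ _ _) (upper_Bb h12 h23 _)
    ((upper_Ab G12 G23 _ _ _).isUnit fun p => by rw [diag_Ab G12 G23]; exact one_ne_zero)
    ((upper_Bb h12 h23 _).isUnit fun p => diag_Bb h12 h23 (by simp [b2]) (by simp [b2])
      (by simp [b2]) p), rank_box_pm] at h4
  exact h4

end Pool.Agent.H30.KL
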