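import Mathlib

/-!
# Selection lemmas (COV-5)

`exists_sel`: induction on `d`: choose `x ∈ X` with `((𝒩).filter (x ∈ ·)).card` minimal; `R'' ⊆ X \ {x}` for `d - 1`, `R = insert x R''`.  If `x ∈ N` then `X ⊆ N`:
for `y ∈ X \ N` every `N' ∈ 𝒩` with `y ∈ N'` contains `N` (chain), hence `x`, and `N` contains `x` but not `y`: contradiction to minimality.
`exists_involution`: `Finset.equivOfCardEq`, `Function.Involutive.toPerm`.
-/

namespace Pool.Agent.H30.KL

theorem exists_sel {α : Type*} [DecidableEq α] (𝒩 : Finset (Finset α))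
    (hN : ∀ N ∈ 𝒩, ∀ N' ∈ 𝒩, N ⊆ N' ∨ N' ⊆ N) (X : Finset α) (d : ℕ) (hd : d ≤ X.card) :
    ∃ R ⊆ X, R.card = d ∧ ∀ N ∈ 𝒩, Disjoint R N ∨ X \ N ⊆ R := by
  induction d generalizing X with
  | zero => exact ⟨∅, Finset.empty_subset _, rfl, fun N _ => Or.inl (Finset.disjoint_empty_left N)⟩
  | succ d ih =>
    have hne : X.Nonempty := Finset.card_pos.1 (by omega)
    obtain ⟨x, hx, hmin⟩ := Finset.exists_min_image X (fun x => (𝒩.filter (x ∈ ·)).card) hne
    obtain ⟨R, hR, hcard, hprop⟩ := ih (X.erase x) (by rw [Finset.card_erase_of_mem hx]; omega)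
    have hxR : x ∉ R := fun h => Finset.notMem_erase x X (hR h)
    refine ⟨insert x R, ?_, by rw [Finset.card_insert_of_notMem hxR, hcard], ?_⟩
    · intro y hy
      rcases Finset.mem_insert.1 hy with rfl | hy
      · exact hx
      · exact Finset.mem_of_mem_erase (hR hy)
    · intro N hNm
      by_cases hxN : x ∈ N
      · right
        intro y hy
        obtain ⟨hyX, hyN⟩ := Finset.mem_sdiff.1 hy
        exfalso
        have hlt : (𝒩.filter (y ∈ ·)).card < (𝒩.filter (x ∈ ·)).card := by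
          apply Finset.card_lt_card
          rw [Finset.ssubset_iff_of_subset]
          · exact ⟨N, Finset.mem_filter.2 ⟨hNm, hxN⟩, fun h => hyN (Finset.mem_filter.1 h).2⟩
          · intro N' hN'
            obtain ⟨h1, h2⟩ := Finset.mem_filter.1 hN'
            refine Finset.mem_filter.2 ⟨h1, ?_⟩
            rcases hN N hNm N' h1 with h | h
            · exact h hxN
            · exact absurd (h h2) hyN
        exact absurd (hmin y hyX) (not_le.2 hlt)
      · rcases hprop N hNm with h | h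
        · left
          rw [Finset.disjoint_insert_left]
          exact ⟨hxN, h⟩
        · right
          intro y hy
          obtain ⟨hyX, hyN⟩ := Finset.mem_sdiff.1 hy
          by_cases hyx : y = x
          · rw [hyx]; exact Finset.mem_insert_self x R
          · exact Finset.mem_insert_of_mem
              (h (Finset.mem_sdiff.2 ⟨Finset.mem_erase.2 ⟨hyx, hyX⟩, hyN⟩))

theorem exists_involution {α : Type*} [DecidableEq α] (C R : Finset α) (hCR : Disjoint C R)
    (h : C.card = R.card) : ∃ τ : Equiv.Perm α, (∀ x, τ (τ x) = x) ∧ (∀ x ∈ C, τ x ∈ R) ∧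
      (∀ x ∈ R, τ x ∈ C) ∧ ∀ x, x ∉ C → x ∉ R → τ x = x := by
  classical
  let e : C ≃ R := Finset.equivOfCardEq h
  let f : α → α := fun x => if hx : x ∈ C then (e ⟨x, hx⟩ : α)
    else if hx' : x ∈ R then (e.symm ⟨x, hx'⟩ : α) else x
  have hRC : ∀ x, x ∈ R → x ∉ C := fun x hx hx' => Finset.disjoint_left.1 hCR hx' hx
  have fC : ∀ x (hx : x ∈ C), f x = (e ⟨x, hx⟩ : α) := fun x hx => dif_pos hx
  have fR : ∀ x (hx : x ∈ R), f x = (e.symm ⟨x, hx⟩ : α) := fun x hx => by
    simp only [f, dif_neg (hRC x hx), dif_pos hx]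
  have fO : ∀ x, x ∉ C → x ∉ R → f x = x := fun x h1 h2 => by
    simp only [f, dif_neg h1, dif_neg h2]
  have hf : Function.Involutive f := by
    intro x
    by_cases hx : x ∈ C
    · rw [fC x hx, fR _ (e ⟨x, hx⟩).2]
      simp
    · by_cases hx' : x ∈ R
      · rw [fR x hx', fC _ (e.symm ⟨x, hx'⟩).2]
        simp
      · rw [fO x hx hx', fO x hx hx']
  refine ⟨hf.toPerm, fun x => hf x, fun x hx => ?_, fun x hx => ?_, fun x h1 h2 => fO x h1 h2⟩
  · change f x ∈ R
    rw [fC x hx]; exact (e ⟨x, hx⟩).2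
  · change f x ∈ C
    rw [fR x hx]; exact (e.symm ⟨x, hx⟩).2

end Pool.Agent.H30.KL
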