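import Pool.Agent.H30.KL.Cov.Count
import Pool.Agent.H30.KL.Cov.Sel
import Pool.Agent.H30.KL.Cov.Obs

/-!
# Necessity in the covexillary case (COV-7)

`nec1`: some essential box `(i',j')` with `rk u i' j' = rk v i' j'` separates `(c,r)`.  `τ = 1`: `obstruction` (`Obst.lean`): `w312 u c k r ≤ v` by
`bruhat_of_ess` and `rk_w312`: at an essential box `(p,q)` with `rk u p q = rk v p q` both indicators vanish: the first one would separate `(k,r)`; for the
second one: `c ≤ q < k`, `u c < p ≤ u r`: if `p ≤ u k` then `(p,q)` separates `(c,k)`, if `u k < p` then `i ≤ u k < p`, `q < k ≤ j`: `not_nested`.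
But `w321 u c r = u * swap c r` is not `≤ v` (`lt_of_swap_le` at `(i',j')`).

`nec2`: no such box.  `d = rk v i j - rk u i j`.  `R ⊆ NE u i j \ {r}` with `d` elements from `exists_sel`, `𝒩 = {NE u p q | Ess v p q, i ≤ p, j ≤ q}` (a chain by
`not_nested`), `C ⊆ SW u i j \ {c}` with `d` elements, `𝒩 = {SW u p q | Ess v p q, p ≤ i, q ≤ j}`; `τ` from `exists_involution`; `obstruction2`.
`sel_NE`: for `(p,q)` essential, `i ≤ p`, `j ≤ q`, not `(i,j)`: `(R ∩ NE u p q).card + [c ≤ q < r, u c < p ≤ u r] ≤ rk v p q - rk u p q`: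
if `R ∩ NE u p q = ∅` this is the hypothesis; otherwise `(NE u i j \ {r}) \ NE u p q ⊆ R`, so `(R ∩ NE u p q).card = d - ((NE u i j \ {r}) \ NE u p q).card` and
`card_NE` for both boxes, `strict1`.  Similarly `sel_SW`.
At `(i,j)`: `rk (w312 (u * τ) c k r) i j = rk (u * τ) i j ≤ rk u i j + d`, but `rk (w321 (u * τ) c r) i j = rk (u * τ) i j + 1 = rk u i j + d + 1`.
-/

namespace Pool.Agent.H30.KL

variable {n : ℕ}

theorem nec1 {u v : Equiv.Perm (Fin n)} (hv : Avoids3412 v) {i j c k r : Fin n}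
    (hE : Ess v i j) (hck : c < k) (hkj : k ≤ j) (hjr : j < r) (huc : u c < i) (huk : i ≤ u k)
    (hur : u k < u r) (h1 : BruhatLE (u * Equiv.swap c k) v)
    (h2 : BruhatLE (u * Equiv.swap k r) v)
    (ht : ∃ i' j', Ess v i' j' ∧ c ≤ j' ∧ j' < r ∧ u c < i' ∧ i' ≤ u r ∧ rk u i' j' = rk v i' j') :
    ¬ Hom u v := by
  intro h
  obtain ⟨i', j', hE', e1, e2, e3, e4, e5⟩ := ht
  have hkr : k < r := lt_of_le_of_lt hkj hjr
  have g12 : u c < u k := lt_of_lt_of_le huc huk
  have huv : BruhatLE u v := le_of_swap hck g12 h1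
  have hw : BruhatLE (w312 u c k r) v := by
    apply bruhat_of_ess
    intro p q hpq
    rw [rk_w312 hck hkr g12 hur]
    have h0 := huv p q
    by_cases c1 : k ≤ q ∧ q < r ∧ u k < p ∧ p ≤ u r
    · have h3 := lt_of_swap_le hkr hur h2 c1.1 c1.2.1 c1.2.2.1 c1.2.2.2
      rw [if_pos c1, if_neg (fun h => absurd c1.1 (not_le.2 h.2.1))]
      omega
    · rw [if_neg c1]
      by_cases c2 : c ≤ q ∧ q < k ∧ u c < p ∧ p ≤ u r
      · rw [if_pos c2]
        rcases le_or_gt p (u k) with h3 | h3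
        · have h4 := lt_of_swap_le hck g12 h1 c2.1 c2.2.1 c2.2.2.1 h3
          omega
        · exact (not_nested hv hE hpq (lt_of_le_of_lt huk h3) (lt_of_lt_of_le c2.2.1 hkj)).elim
      · rw [if_neg c2]
        omega
  have h3 := obstruction h hck hkr g12 hur hw
  have h4 := lt_of_swap_le (hck.trans hkr) (g12.trans hur) h3 e1 e2 e3 e4
  omega

theorem sel_count {α : Type*} [DecidableEq α] {A N C : Finset α} {x : α} (hN : N ⊆ A)
    (hx : x ∈ A) (h : (A.erase x) \ N ⊆ C) :
    (C ∩ N).card + A.card ≤ C.card + N.card + (if x ∈ N then 0 else 1) := by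
  have h1 := Finset.card_inter_add_card_sdiff C N
  have h2 : ((A.erase x) \ N).card ≤ (C \ N).card := by
    apply Finset.card_le_card
    intro y hy
    exact Finset.mem_sdiff.2 ⟨h hy, (Finset.mem_sdiff.1 hy).2⟩
  have h3 : (A \ N).card + N.card = A.card := Finset.card_sdiff_add_card_eq_card hN
  have h4 : (A.erase x) \ N = (A \ N).erase x := by
    ext y
    simp only [Finset.mem_sdiff, Finset.mem_erase]
    tauto
  by_cases hxN : x ∈ N
  · rw [if_pos hxN]
    rw [h4, Finset.erase_eq_of_notMem (fun h5 => (Finset.mem_sdiff.1 h5).2 hxN)] at h2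
    omega
  · rw [if_neg hxN]
    rw [h4, Finset.card_erase_of_mem (Finset.mem_sdiff.2 ⟨hx, hxN⟩)] at h2
    omega

/-- selection of the upper points -/
theorem sel_NE {u v : Equiv.Perm (Fin n)} (hv : Avoids3412 v) (huv : BruhatLE u v)
    {i j c r : Fin n} (hE : Ess v i j) (hcj : c ≤ j) (hjr : j < r) (huc : u c < i)
    (hur : i ≤ u r)
    (ht : ∀ p q, Ess v p q → c ≤ q → q < r → u c < p → p ≤ u r → rk u p q < rk v p q) :
    ∃ R ⊆ (NE u i j).erase r, R.card = rk v i j - rk u i j ∧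
      ∀ p q, Ess v p q → i ≤ p → j ≤ q → ¬ (i = p ∧ j = q) →
        rk u p q + (R ∩ NE u p q).card +
          (if c ≤ q ∧ q < r ∧ u c < p ∧ p ≤ u r then 1 else 0) ≤ rk v p q := by
  classical
  have hrm : r ∈ NE u i j := mem_NE.2 ⟨hjr, hur⟩
  obtain ⟨R, hR, hRc, hRp⟩ := exists_sel
    ((Finset.univ.filter fun x : Fin n × Fin n => Ess v x.1 x.2 ∧ i ≤ x.1 ∧ j ≤ x.2).image
      fun x => NE u x.1 x.2) (by
      intro N hN N' hN'
      obtain ⟨x, hx, rfl⟩ := Finset.mem_image.1 hN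
      obtain ⟨y, hy, rfl⟩ := Finset.mem_image.1 hN'
      simp only [Finset.mem_filter, Finset.mem_univ, true_and] at hx hy
      have hmono : ∀ p q p' q' : Fin n, p ≤ p' → q ≤ q' → NE u p' q' ⊆ NE u p q := by
        intro p q p' q' h1 h2 z hz
        rw [mem_NE] at hz ⊢
        exact ⟨lt_of_le_of_lt h2 hz.1, h1.trans hz.2⟩
      rcases le_total x.1 y.1 with h1 | h1 <;> rcases le_total x.2 y.2 with h2 | h2
      · exact Or.inr (hmono _ _ _ _ h1 h2)
      · rcases h1.lt_or_eq with h3 | h3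
        · rcases h2.lt_or_eq with h4 | h4
          · exact (not_nested hv hx.1 hy.1 h3 h4).elim
          · exact Or.inr (hmono _ _ _ _ h1 h4.ge)
        · exact Or.inl (hmono _ _ _ _ h3.ge h2)
      · rcases h1.lt_or_eq with h3 | h3
        · rcases h2.lt_or_eq with h4 | h4
          · exact (not_nested hv hy.1 hx.1 h3 h4).elim
          · exact Or.inl (hmono _ _ _ _ h1 h4.ge)
        · exact Or.inr (hmono _ _ _ _ h3.ge h2)
      · exact Or.inl (hmono _ _ _ _ h1 h2)) ((NE u i j).erase r) (rk v i j - rk u i j) (by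
      rw [Finset.card_erase_of_mem hrm]
      have h1 := card_NE u i j
      have h2 := rk_lt_row hE.1
      omega)
  refine ⟨R, hR, hRc, ?_⟩
  intro p q hpq hip hjq hne
  have h0 := huv p q
  rcases hRp (NE u p q) (Finset.mem_image.2 ⟨(p, q), by simp [hpq, hip, hjq], rfl⟩) with h1 | h1
  · rw [Finset.disjoint_iff_inter_eq_empty.1 h1, Finset.card_empty]
    split_ifs with h2
    · have h3 := ht p q hpq h2.1 h2.2.1 h2.2.2.1 h2.2.2.2
      omega
    · omega
  · have h2 := sel_count (C := R) (N := NE u p q) (fun z hz => by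
      rw [mem_NE] at hz ⊢
      exact ⟨lt_of_le_of_lt hjq hz.1, hip.trans hz.2⟩) hrm h1
    have h3 := card_NE u i j
    have h4 := card_NE u p q
    have h5 := strict1 hE hip hjq hne
    have h6 := huv i j
    by_cases h7 : r ∈ NE u p q
    · rw [if_pos h7] at h2
      split_ifs <;> omega
    · rw [if_neg h7] at h2
      rw [if_neg (fun h8 => h7 (mem_NE.2 ⟨h8.2.1, h8.2.2.2⟩))]
      omega

/-- selection of the lower points -/
theorem sel_SW {u v : Equiv.Perm (Fin n)} (hv : Avoids3412 v) (huv : BruhatLE u v)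
    {i j c r : Fin n} (hE : Ess v i j) (hcj : c ≤ j) (hjr : j < r) (huc : u c < i)
    (hur : i ≤ u r)
    (ht : ∀ p q, Ess v p q → c ≤ q → q < r → u c < p → p ≤ u r → rk u p q < rk v p q) :
    ∃ C ⊆ (SW u i j).erase c, C.card = rk v i j - rk u i j ∧
      ∀ p q, Ess v p q → p ≤ i → q ≤ j → ¬ (i = p ∧ j = q) →
        rk u p q + (C ∩ SW u p q).card +
          (if c ≤ q ∧ q < r ∧ u c < p ∧ p ≤ u r then 1 else 0) ≤ rk v p q := by
  classical
  have hcm : c ∈ SW u i j := mem_SW.2 ⟨hcj, huc⟩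
  obtain ⟨C, hC, hCc, hCp⟩ := exists_sel
    ((Finset.univ.filter fun x : Fin n × Fin n => Ess v x.1 x.2 ∧ x.1 ≤ i ∧ x.2 ≤ j).image
      fun x => SW u x.1 x.2) (by
      intro N hN N' hN'
      obtain ⟨x, hx, rfl⟩ := Finset.mem_image.1 hN
      obtain ⟨y, hy, rfl⟩ := Finset.mem_image.1 hN'
      simp only [Finset.mem_filter, Finset.mem_univ, true_and] at hx hy
      have hmono : ∀ p q p' q' : Fin n, p ≤ p' → q ≤ q' → SW u p q ⊆ SW u p' q' := by
        intro p q p' q' h1 h2 z hz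
        rw [mem_SW] at hz ⊢
        exact ⟨hz.1.trans h2, lt_of_lt_of_le hz.2 h1⟩
      rcases le_total x.1 y.1 with h1 | h1 <;> rcases le_total x.2 y.2 with h2 | h2
      · exact Or.inl (hmono _ _ _ _ h1 h2)
      · rcases h1.lt_or_eq with h3 | h3
        · rcases h2.lt_or_eq with h4 | h4
          · exact (not_nested hv hx.1 hy.1 h3 h4).elim
          · exact Or.inl (hmono _ _ _ _ h1 h4.ge)
        · exact Or.inr (hmono _ _ _ _ h3.ge h2)
      · rcases h1.lt_or_eq with h3 | h3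
        · rcases h2.lt_or_eq with h4 | h4
          · exact (not_nested hv hy.1 hx.1 h3 h4).elim
          · exact Or.inr (hmono _ _ _ _ h1 h4.ge)
        · exact Or.inl (hmono _ _ _ _ h3.ge h2)
      · exact Or.inr (hmono _ _ _ _ h1 h2)) ((SW u i j).erase c) (rk v i j - rk u i j) (by
      rw [Finset.card_erase_of_mem hcm]
      have h1 := card_SW u i j
      have h2 := rk_lt_col hE.1
      omega)
  refine ⟨C, hC, hCc, ?_⟩
  intro p q hpq hip hjq hne
  have h0 := huv p q
  rcases hCp (SW u p q) (Finset.mem_image.2 ⟨(p, q), by simp [hpq, hip, hjq], rfl⟩) with h1 | h1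
  · rw [Finset.disjoint_iff_inter_eq_empty.1 h1, Finset.card_empty]
    split_ifs with h2
    · have h3 := ht p q hpq h2.1 h2.2.1 h2.2.2.1 h2.2.2.2
      omega
    · omega
  · have h2 := sel_count (C := C) (N := SW u p q) (fun z hz => by
      rw [mem_SW] at hz ⊢
      exact ⟨hz.1.trans hjq, lt_of_lt_of_le hz.2 hip⟩) hcm h1
    have h3 := card_SW u i j
    have h4 := card_SW u p q
    have h5 := strict2 hE hip hjq hne
    have h6 := huv i j
    by_cases h7 : c ∈ SW u p q
    · rw [if_pos h7] at h2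
      split_ifs <;> omega
    · rw [if_neg h7] at h2
      rw [if_neg (fun h8 => h7 (mem_SW.2 ⟨h8.1, h8.2.2.1⟩))]
      omega

theorem nec2 {u v : Equiv.Perm (Fin n)} (hv : Avoids3412 v) {i j c k r : Fin n}
    (hE : Ess v i j) (hck : c < k) (hkj : k ≤ j) (hjr : j < r) (huc : u c < i) (huk : i ≤ u k)
    (hur : u k < u r) (h1 : BruhatLE (u * Equiv.swap c k) v)
    (ht : ∀ p q, Ess v p q → c ≤ q → q < r → u c < p → p ≤ u r → rk u p q < rk v p q) :
    ¬ Hom u v := by
  intro h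
  have hkr : k < r := lt_of_le_of_lt hkj hjr
  have hcj : c ≤ j := hck.le.trans hkj
  have g12 : u c < u k := lt_of_lt_of_le huc huk
  have hir : i ≤ u r := huk.trans hur.le
  have huv : BruhatLE u v := le_of_swap hck g12 h1
  obtain ⟨R, hR, hRc, hRp⟩ := sel_NE hv huv hE hcj hjr huc hir ht
  obtain ⟨C, hC, hCc, hCp⟩ := sel_SW hv huv hE hcj hjr huc hir ht
  have mR : ∀ x ∈ R, x ≠ r ∧ j < x ∧ i ≤ u x := by
    intro x hx
    have h3 := Finset.mem_erase.1 (hR hx)
    exact ⟨h3.1, mem_NE.1 h3.2⟩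
  have mC : ∀ x ∈ C, x ≠ c ∧ x ≤ j ∧ u x < i := by
    intro x hx
    have h3 := Finset.mem_erase.1 (hC hx)
    exact ⟨h3.1, mem_SW.1 h3.2⟩
  have hdis : Disjoint C R := by
    rw [Finset.disjoint_left]
    intro x hx hx'
    exact absurd (mC x hx).2.1 (not_le.2 (mR x hx').2.1)
  obtain ⟨τ, hττ, hτC, hτR, hτO⟩ := exists_involution C R hdis (hCc.trans hRc.symm)
  have hup : ∀ x, x < τ x → x ∈ C := by
    intro x hx
    by_contra hxC
    by_cases hxR : x ∈ R
    · exact absurd ((mC _ (hτR x hxR)).2.1.trans_lt (mR x hxR).2.1) hx.not_gt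
    · rw [hτO x hxC hxR] at hx
      exact lt_irrefl _ hx
  have hdn : ∀ x, τ x < x → x ∈ R := by
    intro x hx
    by_contra hxR
    by_cases hxC : x ∈ C
    · exact absurd ((mC x hxC).2.1.trans_lt (mR _ (hτC x hxC)).2.1) hx.not_gt
    · rw [hτO x hxC hxR] at hx
      exact lt_irrefl _ hx
  have hu : ∀ x, x < τ x → u x < u (τ x) := by
    intro x hx
    have hxC := hup x hx
    exact lt_of_lt_of_le (mC x hxC).2.2 (mR _ (hτC x hxC)).2.2
  have ec : τ c = c := hτO c (fun hx => (mC c hx).1 rfl)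
    (fun hx => absurd (mR c hx).2.1 (not_lt.2 hcj))
  have ek : τ k = k := hτO k (fun hx => absurd (mC k hx).2.2 (not_lt.2 huk))
    (fun hx => absurd (mR k hx).2.1 (not_lt.2 hkj))
  have er : τ r = r := hτO r (fun hx => absurd (mC r hx).2.1 (not_le.2 hjr))
    (fun hx => (mR r hx).1 rfl)
  have e1 : (u * τ) c = u c := by rw [Equiv.Perm.mul_apply, ec]
  have e2 : (u * τ) k = u k := by rw [Equiv.Perm.mul_apply, ek]
  have e3 : (u * τ) r = u r := by rw [Equiv.Perm.mul_apply, er]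
  have hw : BruhatLE (w312 (u * τ) c k r) v := by
    apply bruhat_of_ess
    intro p q hpq
    rw [rk_w312 hck hkr (by rw [e1, e2]; exact g12) (by rw [e2, e3]; exact hur), e1, e2, e3]
    have hne1 : ¬ (i < p ∧ q < j) := fun h3 => not_nested hv hE hpq h3.1 h3.2
    have hne2 : ¬ (p < i ∧ j < q) := fun h3 => not_nested hv hpq hE h3.1 h3.2
    have h5 := rk_invol_le_NE hττ R hdn p q (u := u)
    by_cases hpe : i = p ∧ j = q
    · obtain ⟨rfl, rfl⟩ := hpe
      rw [if_neg (fun h3 => absurd h3.2.2.1 (not_lt.2 huk)),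
        if_neg (fun h3 => absurd h3.2.1 (not_lt.2 hkj))]
      have h3 : (R ∩ NE u i j).card ≤ R.card := Finset.card_le_card Finset.inter_subset_left
      have h4 := huv i j
      omega
    · by_cases hge : i ≤ p ∧ j ≤ q
      · have h3 := hRp p q hpq hge.1 hge.2 hpe
        rw [if_neg (fun h4 : c ≤ q ∧ q < k ∧ u c < p ∧ p ≤ u r =>
          absurd (h4.2.1.trans_le hkj) (not_lt.2 hge.2))]
        by_cases c1 : k ≤ q ∧ q < r ∧ u k < p ∧ p ≤ u r
        · rw [if_pos c1]
          rw [if_pos ⟨hck.le.trans c1.1, c1.2.1, g12.trans c1.2.2.1, c1.2.2.2⟩] at h3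
          omega
        · rw [if_neg c1]
          omega
      · have hle : p ≤ i ∧ q ≤ j := by
          rcases not_and_or.1 hge with h3 | h3
          · have h4 := not_le.1 h3
            exact ⟨h4.le, not_lt.1 fun h5 => hne2 ⟨h4, h5⟩⟩
          · have h4 := not_le.1 h3
            exact ⟨not_lt.1 fun h5 => hne1 ⟨h5, h4⟩, h4.le⟩
        have h3 := hCp p q hpq hle.1 hle.2 hpe
        have h6 := rk_invol_le_SW hττ hu C hup p q
        rw [if_neg (fun h4 : k ≤ q ∧ q < r ∧ u k < p ∧ p ≤ u r =>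
          absurd (h4.2.2.1.trans_le hle.1) (not_lt.2 huk))]
        by_cases c2 : c ≤ q ∧ q < k ∧ u c < p ∧ p ≤ u r
        · rw [if_pos c2]
          rw [if_pos ⟨c2.1, c2.2.1.trans hkr, c2.2.2.1, c2.2.2.2⟩] at h3
          omega
        · rw [if_neg c2]
          omega
  have h3 := obstruction2 h hττ hu hck hkr g12 hur ec ek er hw i j
  rw [w321, rk_swap (hck.trans hkr) (by rw [e1, e3]; exact g12.trans hur), e1, e3,
    if_pos ⟨hcj, hjr, huc, hir⟩] at h3
  have h4 := rk_invol_ge (u := u) (τ := τ) C (i := i) (j := j)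
    (fun x hx => mem_SW.2 (mC x hx).2) (fun x hx => (mR _ (hτC x hx)).2.2)
    (fun x hx hx' => hτO x (fun h5 => absurd (mC x h5).2.2 (not_lt.2 hx'))
      (fun h5 => absurd (mR x h5).2.1 (not_lt.2 hx)))
  have h5 := huv i j
  omega

end Pool.Agent.H30.KL
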