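import Pool.Agent.H30.KL.Cov.Ess

/-!
# The entries which vanish (COV-2)

`klIdeal_top`: `rk v i j < rk u i j` for some `(i,j)`.  `K = {k ≤ j, i ≤ u k}` has more than `rk v i j` elements; take `m = rk v i j + 1` of them,
`g : Fin m ↪o Fin n` increasing (`orderEmbOfFin`), `f = u ∘ g`: the minor is lower triangular with `1` on the diagonal (`Zmat u (u (g a)) (g b) = 0` for
`a < b`: entries to the right of a `1` vanish), so it is `1`; `det_mem_klIdeal`.

`entry_mem`: strong induction on `b - a`.  `sep_of_not_le`: `(i,j)` essential, separates `(a,b)`, `rk u i j = rk v i j`.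
`K = {k ≤ j, i ≤ u k}`, index type `Option K`, rows `none ↦ u b`, `some k ↦ u k`, columns `none ↦ a`, `some k ↦ k`; the determinant is in
the ideal (`det_mem_klIdeal` after reindexing by an equivalence with `Fin (rk v i j + 1)`, `det_submatrix_equiv_self`).
`det_apply`: every term with `σ ≠ 1` is in the ideal, the term of `1` is `Zmat u (u b) a`.  Suppose no factor of the term of `σ` is in the ideal.
Let `S = {none} ∪ {some k | Reach u v i j a k}` (these `k` satisfy `a < k`).  If `σ none ≠ none` then `σ` maps `S` into `S \ {none}` (factors are entries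
`Zmat u (u k') k`, nonzero, so `k' = k` or `k < k' ∧ u k < u k'`; the step is `Up` by the induction hypothesis because `k' - k < b - a`;
`some k ∈ S` with `σ (some k) = none` would give `BadChain`): contradiction to injectivity.  So `σ none = none`, and `k ≤ σ k` for all `k ∈ K`, so `σ = 1`.
-/

open MvPolynomial Matrix

namespace Pool.Agent.H30.KL

variable {n : ℕ}

/-- a nonzero entry -/
theorem entry_ne_zero {u : Equiv.Perm (Fin n)} {a b : Fin n} (h : Zmat u (u b) a ≠ 0) :
    a = b ∨ (a < b ∧ u a < u b) := by
  by_cases h1 : u a < u b ∧ a < u.symm (u b)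
  · right
    rw [Equiv.symm_apply_apply] at h1
    exact ⟨h1.2, h1.1⟩
  · left
    by_contra h2
    apply h
    rw [Zmat, Matrix.of_apply, dif_neg h1, if_neg]
    intro h3
    exact h2 (u.injective h3)

theorem entry_diag (u : Equiv.Perm (Fin n)) (a : Fin n) : Zmat u (u a) a = 1 := by
  rw [Zmat, Matrix.of_apply, dif_neg (fun h => lt_irrefl _ h.1), if_pos rfl]

theorem klIdeal_top {u v : Equiv.Perm (Fin n)} (h : ¬ BruhatLE u v) : klIdeal u v = ⊤ := by
  rw [BruhatLE] at h
  push Not at h
  obtain ⟨i, j, hij⟩ := h
  obtain ⟨K, hK, hc⟩ := Finset.exists_subset_card_eq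
    (s := Finset.univ.filter fun k => k ≤ j ∧ i ≤ u k) (n := rk v i j + 1) hij
  have hmem : ∀ x, K.orderEmbOfFin hc x ≤ j ∧ i ≤ u (K.orderEmbOfFin hc x) := by
    intro x
    have h1 := hK (K.orderEmbOfFin_mem hc x)
    simpa using h1
  have h1 := det_mem_klIdeal u v (i := i) (j := j) (m := rk v i j + 1) rfl
    (fun x => u (K.orderEmbOfFin hc x)) (fun x => K.orderEmbOfFin hc x)
    (fun x => (hmem x).2) (fun x => (hmem x).1)
  rw [det_of_isLowerTriangular] at h1
  · rw [Ideal.eq_top_iff_one]
    simpa [entry_diag] using h1
  · intro a b hab
    have hab' : a < b := hab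
    rw [submatrix_apply]
    by_contra h2
    have h3 : K.orderEmbOfFin hc a < K.orderEmbOfFin hc b := by simpa using hab'
    rcases entry_ne_zero h2 with h4 | h4
    · rw [h4] at h3; exact lt_irrefl _ h3
    · exact lt_asymm h3 h4.1

theorem S1_reach_lt {u v : Equiv.Perm (Fin n)} {i j c k : Fin n} (h : Reach u v i j c k) :
    c < k := by
  induction h with
  | base _ h1 _ _ => exact h1.1
  | step _ h1 _ _ ih => exact ih.trans h1.1

theorem S1_reach_le {u v : Equiv.Perm (Fin n)} {i j c k : Fin n} (h : Reach u v i j c k) :
    k ≤ j := by
  cases h with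
  | base _ _ h1 _ => exact h1
  | step _ _ h1 _ => exact h1

theorem S1_entry_mem_aux {u v : Equiv.Perm (Fin n)} (huv : BruhatLE u v)
    (hc : ∀ i j, Ess v i j → ¬ BadChain u v i j) : ∀ (N : ℕ) (a b : Fin n), (b : ℕ) - a ≤ N →
    a ≠ b → ¬ Up u v a b → Zmat u (u b) a ∈ klIdeal u v := by
  intro N
  induction N with
  | zero =>
    intro a b hN hab h
    have h1 : Zmat u (u b) a = 0 := by
      by_contra h2
      rcases entry_ne_zero h2 with h3 | h3
      · exact hab h3
      · have := h3.1
        rw [Fin.lt_def] at this
        omega
    rw [h1]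
    exact Ideal.zero_mem _
  | succ N ih =>
    intro a b hN hab h
    by_cases hz : Zmat u (u b) a = 0
    · rw [hz]; exact Ideal.zero_mem _
    obtain ⟨hlt, hu⟩ := (entry_ne_zero hz).resolve_left hab
    have hB : ¬ BruhatLE (u * Equiv.swap a b) v := fun h1 => h ⟨hlt, hu, h1⟩
    obtain ⟨i, j, hE, haj, hjb, hai, hib, hrk⟩ := sep_of_not_le huv hlt hu hB
    have hltn : (a : ℕ) < b := hlt
    have hjbn : (j : ℕ) < b := hjb
    -- index type
    let K := {k : Fin n // k ≤ j ∧ i ≤ u k}
    have hcard : Fintype.card (Option K) = rk v i j + 1 := by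
      rw [Fintype.card_option, ← hrk, rk, Fintype.card_subtype]
    let rp : Option K → Fin n := fun x => x.elim b fun k => k.1
    let cp : Option K → Fin n := fun x => x.elim a fun k => k.1
    let M : Matrix (Option K) (Option K) (MvPolynomial (Free u) ℂ) :=
      (Zmat u).submatrix (fun x => u (rp x)) cp
    have hMdet : M.det ∈ klIdeal u v := by
      let e : Option K ≃ Fin (rk v i j + 1) := Fintype.equivFinOfCardEq hcard
      have h1 : (M.submatrix e.symm e.symm).det = M.det := det_submatrix_equiv_self e.symm M
      rw [← h1]
      have h2 : M.submatrix e.symm e.symm = (Zmat u).submatrix (fun x => u (rp (e.symm x)))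
          (fun x => cp (e.symm x)) := rfl
      rw [h2]
      apply det_mem_klIdeal u v rfl
      · intro x
        rcases e.symm x with _ | k
        · exact hib
        · exact k.2.2
      · intro x
        rcases e.symm x with _ | k
        · exact haj
        · exact k.2.1
    have hne : ∀ σ : Equiv.Perm (Option K), σ ≠ 1 → ∏ x, M (σ x) x ∈ klIdeal u v := by
      intro σ hσ
      by_contra hprod
      have hfac : ∀ x, M (σ x) x ∉ klIdeal u v := by
        intro x hx
        apply hprod
        rw [← Finset.mul_prod_erase Finset.univ _ (Finset.mem_univ x)]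
        exact Ideal.mul_mem_right _ _ hx
      have hnz : ∀ x, cp x = rp (σ x) ∨ (cp x < rp (σ x) ∧ u (cp x) < u (rp (σ x))) := by
        intro x
        apply entry_ne_zero
        intro h0
        apply hfac x
        change Zmat u (u (rp (σ x))) (cp x) ∈ _
        rw [h0]
        exact Ideal.zero_mem _
      have hup : ∀ x, cp x ≠ rp (σ x) → (rp (σ x) : ℕ) - cp x ≤ N → Up u v (cp x) (rp (σ x)) := by
        intro x h1 h2
        by_contra h3
        exact hfac x (ih _ _ h2 h1 h3)
      have hnone : σ none = none := by
        by_contra hnn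
        -- the set `S`
        let S : Finset (Option K) := by
          classical
          exact Finset.univ.filter fun x => x = none ∨ ∃ k : K, x = some k ∧ Reach u v i j a k.1
        have hSmem : ∀ x, x ∈ S ↔ x = none ∨ ∃ k : K, x = some k ∧ Reach u v i j a k.1 := by
          intro x
          simp [S]
        have hmap : ∀ x ∈ S, σ x ∈ S ∧ σ x ≠ none := by
          intro x hx
          rw [hSmem] at hx
          rcases hx with rfl | ⟨k, rfl, hk⟩
          · obtain ⟨k, hk⟩ := Option.ne_none_iff_exists'.1 hnn
            refine ⟨?_, hnn⟩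
            rw [hSmem]
            right
            refine ⟨k, hk, ?_⟩
            have h1 := hup none
            rw [hk] at h1
            have h2 : cp none = a := rfl
            have h3 : rp (some k) = k.1 := rfl
            rw [h2, h3] at h1
            have h4 : a ≠ k.1 := by
              rintro h4
              have h5 := k.2.2
              rw [← h4] at h5
              exact absurd hai (not_lt.2 h5)
            have h5 : (k.1 : ℕ) ≤ j := k.2.1
            exact Reach.base hai (h1 h4 (by omega)) k.2.1 k.2.2
          · have hak := S1_reach_lt hk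
            have hkj : (k.1 : ℕ) ≤ j := k.2.1
            have hakn : (a : ℕ) < k.1 := hak
            have h1 := hup (some k)
            have h0 := hnz (some k)
            have h2 : cp (some k) = k.1 := rfl
            rw [h2] at h1 h0
            rcases hy : σ (some k) with _ | k'
            · exfalso
              rw [hy] at h1
              have h3 : rp none = b := rfl
              rw [h3] at h1
              have h4 : k.1 ≠ b := by
                rintro h4
                rw [← h4] at hjbn
                omega
              exact hc i j hE ⟨a, k.1, b, hk, h1 h4 (by omega), hjb⟩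
            · refine ⟨?_, by simp⟩
              rw [hSmem]
              right
              refine ⟨k', rfl, ?_⟩
              rw [hy] at h1 h0
              have h3 : rp (some k') = k'.1 := rfl
              rw [h3] at h1 h0
              by_cases h4 : k.1 = k'.1
              · rw [← h4]; exact hk
              · have h5 : (k'.1 : ℕ) ≤ j := k'.2.1
                exact Reach.step hk (h1 h4 (by omega)) k'.2.1 k'.2.2
        have h1 : (S.map σ.toEmbedding) ⊆ S.erase none := by
          intro y hy
          rw [Finset.mem_map] at hy
          obtain ⟨x, hx, rfl⟩ := hy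
          rw [Finset.mem_erase]
          exact ⟨(hmap x hx).2, (hmap x hx).1⟩
        have h2 := Finset.card_le_card h1
        have h3 : none ∈ S := (hSmem none).2 (Or.inl rfl)
        rw [Finset.card_map, Finset.card_erase_of_mem h3] at h2
        have h4 : 0 < S.card := Finset.card_pos.2 ⟨_, h3⟩
        omega
      -- now `σ` is the identity
      let w : Option K → ℕ := fun x => x.elim 0 fun k => (k.1 : ℕ)
      have hw : ∀ x ∈ Finset.univ, w x ≤ w (σ x) := by
        intro x _
        rcases x with _ | k
        · exact Nat.zero_le _
        · have h0 := hnz (some k)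
          rcases hy : σ (some k) with _ | k'
          · exfalso
            rw [← hnone] at hy
            exact absurd (σ.injective hy) (by simp)
          · rw [hy] at h0
            rcases h0 with h1 | h1
            · exact le_of_eq (congrArg Fin.val h1)
            · exact le_of_lt h1.1
      have hsum : ∑ x, w x = ∑ x, w (σ x) := (Equiv.sum_comp σ w).symm
      have heq := (Finset.sum_eq_sum_iff_of_le hw).1 hsum
      apply hσ
      ext1 x
      rw [Equiv.Perm.one_apply]
      rcases x with _ | k
      · exact hnone
      · have h1 := heq (some k) (Finset.mem_univ _)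
        rcases hy : σ (some k) with _ | k'
        · exfalso
          rw [← hnone] at hy
          exact absurd (σ.injective hy) (by simp)
        · rw [hy] at h1
          have h2 : (k.1 : ℕ) = k'.1 := h1
          rw [Subtype.ext (Fin.ext h2)]
    have hone : ∏ x, M ((1 : Equiv.Perm (Option K)) x) x = Zmat u (u b) a := by
      rw [Fintype.prod_option]
      have h1 : M ((1 : Equiv.Perm (Option K)) none) none = Zmat u (u b) a := rfl
      rw [h1, Finset.prod_eq_one, mul_one]
      intro k _
      exact entry_diag u k.1
    have hdet : M.det = Zmat u (u b) a + ∑ σ ∈ Finset.univ.erase (1 : Equiv.Perm (Option K)),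
        Equiv.Perm.sign σ • ∏ x, M (σ x) x := by
      rw [det_apply, ← Finset.add_sum_erase Finset.univ _ (Finset.mem_univ (1 : Equiv.Perm (Option K))),
        hone, Equiv.Perm.sign_one, one_smul]
    have hfin : Zmat u (u b) a = M.det - ∑ σ ∈ Finset.univ.erase (1 : Equiv.Perm (Option K)),
        Equiv.Perm.sign σ • ∏ x, M (σ x) x := by
      rw [hdet, add_sub_cancel_right]
    rw [hfin]
    apply Ideal.sub_mem _ hMdet
    apply Ideal.sum_mem
    intro σ hσ
    rw [Finset.mem_erase] at hσ
    have h1 := hne σ hσ.1
    rcases Int.units_eq_one_or (Equiv.Perm.sign σ) with h2 | h2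
    · rw [h2, one_smul]; exact h1
    · rw [h2, Units.neg_smul, one_smul]; exact (Ideal.neg_mem_iff _).2 h1

theorem entry_mem {u v : Equiv.Perm (Fin n)} (huv : BruhatLE u v)
    (hc : ∀ i j, Ess v i j → ¬ BadChain u v i j) {a b : Fin n} (hab : a ≠ b)
    (h : ¬ Up u v a b) : Zmat u (u b) a ∈ klIdeal u v :=
  S1_entry_mem_aux huv hc _ a b le_rfl hab h

end Pool.Agent.H30.KL
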